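import Mathlib
import Pool.Agent.H319R2.Measure
import Pool.Agent.H440R2.LFL2
import Pool.Agent.TH926.OSG.Basic

set_option autoImplicit false

/-!
Rational approximations to `log 2 / log a` with denominators in a given range.
-/

namespace Pool.Agent.W5h23.G

open Finset

/-- Dirichlet -/
theorem dirichlet (α : ℝ) (Q : ℝ) (hQ : 1 ≤ Q) : ∃ (q : ℕ) (h : ℤ), 0 < q ∧ (q : ℝ) ≤ 2 * Q ∧
    IsCoprime h (q : ℤ) ∧ |(q : ℝ) * α - h| ≤ 1 / q ∧ |(q : ℝ) * α - h| ≤ 1 / Q := by
  set P : ℕ := ⌈Q⌉₊ with hP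
  have hP1 : 0 < P := Nat.ceil_pos.2 (by linarith)
  have hPX : Q ≤ P := Nat.le_ceil Q
  have hPX2 : (P : ℝ) ≤ 2 * Q := by
    have := (Nat.ceil_lt_add_one (by linarith : (0 : ℝ) ≤ Q)).le
    linarith
  have hP0 : (0 : ℝ) < P := by exact_mod_cast hP1
  obtain ⟨x, hx1, hx2⟩ := Real.exists_rat_abs_sub_le_and_den_le α (n := P) hP1
  set q : ℕ := x.den with hq
  set h : ℤ := x.num with hh
  have hq0 : 0 < q := x.den_pos
  have hqr : (0 : ℝ) < q := by exact_mod_cast hq0
  have hq1 : (1 : ℝ) ≤ q := by exact_mod_cast hq0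
  have hqP : (q : ℝ) ≤ P := by exact_mod_cast hx2
  have hxq : (x : ℝ) = (h : ℝ) / q := by
    rw [hh, hq]; exact Rat.cast_def x
  have happ : |(q : ℝ) * α - h| ≤ 1 / ((P : ℝ) + 1) := by
    rw [hxq] at hx1
    have e : (q : ℝ) * α - h = q * (α - h / q) := by field_simp
    rw [e, abs_mul, abs_of_pos hqr]
    calc (q : ℝ) * |α - h / q| ≤ q * (1 / (((P : ℝ) + 1) * q)) :=
          mul_le_mul_of_nonneg_left hx1 hqr.le
      _ = 1 / ((P : ℝ) + 1) := by field_simp
  have hcop : IsCoprime h (q : ℤ) := by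
    rw [Int.isCoprime_iff_gcd_eq_one]
    have := x.reduced
    rw [hh, hq]
    rw [Int.gcd_eq_natAbs]
    simpa using this
  exact ⟨q, h, hq0, hqP.trans hPX2, hcop,
    happ.trans (one_div_le_one_div_of_le hqr (by linarith)),
    happ.trans (one_div_le_one_div_of_le (by linarith) (by linarith))⟩

/-- base `3` -/
theorem approx3 : ∃ c : ℝ, 0 < c ∧ ∀ Q : ℝ, 1 ≤ Q → ∃ (q : ℕ) (h : ℤ), 0 < q ∧
    c * Q ^ (1 / 13 : ℝ) ≤ q ∧ (q : ℝ) ≤ 2 * Q ∧ IsCoprime h (q : ℤ) ∧
    |(q : ℝ) * (Real.log 2 / Real.log 3) - h| ≤ 1 / q := by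
  obtain ⟨c, hc, hm⟩ := Pool.Agent.H319R2.measure
  have hl2 : 0 < Real.log 2 := Real.log_pos (by norm_num)
  have hl3 : 0 < Real.log 3 := Real.log_pos (by norm_num)
  set α : ℝ := Real.log 2 / Real.log 3 with hα
  have hα0 : 0 < α := by positivity
  have hα1 : α < 1 := by
    rw [hα, div_lt_one hl3]; exact Real.log_lt_log (by norm_num) (by norm_num)
  have hl34 : Real.log 3 < 2 := by
    have h : Real.log 3 < Real.log (2 ^ 2) := Real.log_lt_log (by norm_num) (by norm_num)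
    rw [Real.log_pow] at h
    have := Real.log_two_lt_d9
    push_cast at h
    linarith
  set c1 : ℝ := c / (2 * 4 ^ 13) with hc1
  have hc10 : 0 < c1 := by positivity
  refine ⟨c1 ^ (1 / 13 : ℝ), by positivity, ?_⟩
  intro Q hQ
  obtain ⟨q, h, hq0, hqQ, hcop, h1q, happ⟩ := dirichlet α Q hQ
  have hQ0 : 0 < Q := by linarith
  have hqr : (0 : ℝ) < q := by exact_mod_cast hq0
  have hq1 : (1 : ℝ) ≤ q := by exact_mod_cast hq0
  refine ⟨q, h, hq0, ?_, hqQ, hcop, h1q⟩
  have hmq := hm (q : ℤ) (-h) (Or.inl (by exact_mod_cast hq0.ne'))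
  have e2 : ((q : ℤ) : ℝ) * Real.log 2 + ((-h : ℤ) : ℝ) * Real.log 3 = Real.log 3 * (q * α - h) := by
    rw [hα]; push_cast; field_simp; ring
  rw [e2, abs_mul, abs_of_pos hl3] at hmq
  have hh4 : ((|(q : ℤ)| + |-h| : ℤ) : ℝ) ≤ 4 * q := by
    have h5 : |(h : ℝ)| ≤ 3 * q := by
      have h6 : |(h : ℝ)| ≤ |(q : ℝ) * α| + |(q : ℝ) * α - h| := by
        have e7 : (h : ℝ) = (q : ℝ) * α - ((q : ℝ) * α - h) := by ring
        calc |(h : ℝ)| = |(q : ℝ) * α - ((q : ℝ) * α - h)| := by rw [← e7]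
          _ ≤ _ := abs_sub _ _
      have h7 : |(q : ℝ) * α| ≤ q := by
        rw [abs_of_pos (by positivity)]; nlinarith
      have h8 : 1 / (q : ℝ) ≤ 1 := by rw [div_le_one hqr]; linarith
      linarith
    push_cast
    rw [abs_neg, abs_of_nonneg hqr.le]
    linarith
  have hh0 : (0 : ℝ) ≤ ((|(q : ℤ)| + |-h| : ℤ) : ℝ) := by
    have : (0 : ℤ) ≤ |(q : ℤ)| + |-h| := by positivity
    exact_mod_cast this
  have h9 : c ≤ (4 * (q : ℝ)) ^ 13 * (2 * (1 / Q)) := by
    refine hmq.trans ?_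
    apply mul_le_mul (pow_le_pow_left₀ hh0 hh4 13) _ (by positivity) (by positivity)
    exact mul_le_mul hl34.le happ (abs_nonneg _) (by norm_num)
  have h10 : c1 * Q ≤ (q : ℝ) ^ 13 := by
    have h11 : c * Q ≤ 2 * 4 ^ 13 * (q : ℝ) ^ 13 := by
      calc c * Q ≤ (4 * (q : ℝ)) ^ 13 * (2 * (1 / Q)) * Q :=
            mul_le_mul_of_nonneg_right h9 hQ0.le
        _ = 2 * 4 ^ 13 * (q : ℝ) ^ 13 := by field_simp
    rw [hc1, div_mul_eq_mul_div, div_le_iff₀ (by positivity)]
    linarith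
  have h12 := Real.rpow_le_rpow (by positivity) h10 (by norm_num : (0 : ℝ) ≤ 1 / 13)
  rw [Real.mul_rpow hc10.le (by positivity), ← Real.rpow_natCast (q : ℝ) 13,
    ← Real.rpow_mul hqr.le] at h12
  norm_num at h12 ⊢
  exact h12

/-- lower bound for linear forms in two logarithms of primes -/
theorem lfl_prime {q : ℕ} (hq : q.Prime) (hq2 : q ≠ 2) : ∃ B : ℝ, 0 < B ∧ ∀ p N : ℕ, 1 ≤ p →
    1 ≤ N → N ≤ p →
    Real.exp (-(B * (1 + Real.log p) ^ 2)) ≤ |(p : ℝ) * Real.log 2 - N * Real.log q| := by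
  have hq3 : 3 ≤ q := by
    have := hq.two_le
    omega
  set Y : ℕ := ⌈Real.log q⌉₊ + 1 with hY
  have hY1 : 1 ≤ Y := by omega
  have hYR : (1 : ℝ) ≤ Y := by exact_mod_cast hY1
  have hqY : Real.log q ≤ Y := by
    have := Nat.le_ceil (Real.log q)
    rw [hY]; push_cast; linarith
  have h2Y : Real.log (2 : ℕ) ≤ Y := by
    have := Real.log_two_lt_d9
    push_cast
    linarith
  set K : ℝ := 16 * (1 + Real.log (9280 * Y)) with hK
  have hlogY : 0 ≤ Real.log (9280 * Y) := Real.log_nonneg (by linarith)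
  have hK16 : 16 ≤ K := by rw [hK]; linarith
  refine ⟨20880 * (Y : ℝ) ^ 2 * (K + 1) ^ 2, by positivity, fun p N hp1 hN1 hNp => ?_⟩
  have hpR : (1 : ℝ) ≤ p := by exact_mod_cast hp1
  have hlogp : 0 ≤ Real.log p := Real.log_nonneg hpR
  have hNR : (N : ℝ) ≤ p := by exact_mod_cast hNp
  set L : ℕ := ⌈K * (1 + Real.log p)⌉₊ with hL
  have hKp : 16 ≤ K * (1 + Real.log p) := by nlinarith
  have hLge : K * (1 + Real.log p) ≤ L := Nat.le_ceil _
  have hL16 : (16 : ℝ) ≤ L := by linarith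
  have hL1 : 1 ≤ L := by
    have : (1 : ℝ) ≤ L := by linarith
    exact_mod_cast this
  have hLle : (L : ℝ) ≤ (K + 1) * (1 + Real.log p) := by
    have := Nat.ceil_lt_add_one (show (0 : ℝ) ≤ K * (1 + Real.log p) by linarith)
    rw [← hL] at this
    linarith
  have hlfl := Pool.Agent.H440R2.lfl 2 q p N Y L Nat.prime_two hq (Ne.symm hq2) hp1 hN1 hY1 hL1
    h2Y hqY (by
      have hL0 : (0 : ℝ) < L := by linarith
      have h5 : Real.log (L / 16) ≤ L / 16 - 1 := Real.log_le_sub_one_of_pos (by positivity)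
      have hN0 : (0 : ℝ) < N := by exact_mod_cast hN1
      have h6 : Real.log (290 * Y * L * ((p : ℝ) + N)) ≤
          Real.log (9280 * Y * (L / 16) * p) := by
        apply Real.log_le_log (by positivity)
        have h7 : (0 : ℝ) < 290 * Y * L := by positivity
        have h8 : (p : ℝ) + N ≤ 2 * p := by linarith
        calc 290 * (Y : ℝ) * L * ((p : ℝ) + N) ≤ 290 * Y * L * (2 * p) :=
              mul_le_mul_of_nonneg_left h8 h7.le
          _ = 9280 * Y * (L / 16) * p := by ring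
      have h6' : Real.log (9280 * Y * (L / 16) * p) =
          Real.log (9280 * Y) + Real.log (L / 16) + Real.log p := by
        rw [Real.log_mul (by positivity) (by positivity), Real.log_mul (by positivity)
          (by positivity)]
      rw [h6'] at h6
      have h7 : K * (1 + Real.log p) ≥ 16 * (1 + Real.log (9280 * Y)) + 16 * Real.log p := by
        rw [hK]
        nlinarith
      linarith)
  have h10 : (L : ℝ) ^ 2 ≤ (K + 1) ^ 2 * (1 + Real.log p) ^ 2 := by
    rw [← mul_pow]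
    exact pow_le_pow_left₀ (by positivity) hLle 2
  have h11 : Real.exp (-(20880 * (Y : ℝ) ^ 2 * (K + 1) ^ 2 * (1 + Real.log p) ^ 2)) ≤
      Real.exp (-(20880 * (Y : ℝ) ^ 2 * (L : ℝ) ^ 2)) := by
    apply Real.exp_le_exp.2
    have : 20880 * (Y : ℝ) ^ 2 * (L : ℝ) ^ 2 ≤
        20880 * (Y : ℝ) ^ 2 * ((K + 1) ^ 2 * (1 + Real.log p) ^ 2) :=
      mul_le_mul_of_nonneg_left h10 (by positivity)
    linarith
  refine h11.trans (hlfl.le.trans (le_of_eq ?_))
  rw [abs_sub_comm]
  push_cast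
  rfl

/-- prime base -/
theorem approx_prime {a : ℕ} (ha : a.Prime) (ha2 : a ≠ 2) : ∃ c : ℝ, 0 < c ∧ ∀ Q : ℝ, 1 ≤ Q →
    ∃ (q : ℕ) (h : ℤ), 0 < q ∧ c * Real.exp (c * √(Real.log Q)) ≤ q ∧ (q : ℝ) ≤ 2 * Q ∧
    IsCoprime h (q : ℤ) ∧ |(q : ℝ) * (Real.log 2 / Real.log a) - h| ≤ 1 / q := by
  obtain ⟨B, hB, hlfl⟩ := lfl_prime ha ha2
  have ha3 : 3 ≤ a := by
    have := ha.two_le
    omega
  have har : (3 : ℝ) ≤ a := by exact_mod_cast ha3
  have hl2 : 0 < Real.log 2 := Real.log_pos (by norm_num)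
  have hla : 0 < Real.log a := Real.log_pos (by linarith)
  set α : ℝ := Real.log 2 / Real.log a with hα
  have hα0 : 0 < α := by positivity
  have hα1 : α < 1 := by
    rw [hα, div_lt_one hla]; exact Real.log_lt_log (by norm_num) (by linarith)
  -- the threshold for `Q`
  set Q1 : ℝ := max (2 / α) (Real.log a ^ 2 + 1) with hQ1
  have hQ11 : 1 ≤ Q1 := by
    have := le_max_right (2 / α) (Real.log a ^ 2 + 1)
    have h2 : 0 ≤ Real.log a ^ 2 := sq_nonneg _
    linarith
  have hlQ1 : 0 ≤ Real.log Q1 := Real.log_nonneg hQ11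
  -- the constant
  set c2 : ℝ := 1 / √(2 * B) with hc2
  have hc20 : 0 < c2 := by positivity
  set c : ℝ := min (min c2 1) (min (Real.exp (-1)) (Real.exp (-√(Real.log Q1)))) with hc
  have hc0 : 0 < c := by
    apply lt_min (lt_min hc20 one_pos) (lt_min (Real.exp_pos _) (Real.exp_pos _))
  have hcc2 : c ≤ c2 := (min_le_left _ _).trans (min_le_left _ _)
  have hc1 : c ≤ 1 := (min_le_left _ _).trans (min_le_right _ _)
  have hce : c ≤ Real.exp (-1) := (min_le_right _ _).trans (min_le_left _ _)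
  have hcQ : c ≤ Real.exp (-√(Real.log Q1)) := (min_le_right _ _).trans (min_le_right _ _)
  refine ⟨c, hc0, ?_⟩
  intro Q hQ
  obtain ⟨q, h, hq0, hqQ, hcop, h1q, happ⟩ := dirichlet α Q hQ
  refine ⟨q, h, hq0, ?_, hqQ, hcop, h1q⟩
  have hQ0 : 0 < Q := by linarith
  have hqr : (0 : ℝ) < q := by exact_mod_cast hq0
  have hq1 : (1 : ℝ) ≤ q := by exact_mod_cast hq0
  have hlQ : 0 ≤ Real.log Q := Real.log_nonneg hQ
  rcases le_or_gt Q Q1 with hQQ | hQQ
  · -- small `Q`
    have h2 : Real.log Q ≤ Real.log Q1 := Real.log_le_log hQ0 hQQ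
    have h3 : √(Real.log Q) ≤ √(Real.log Q1) := Real.sqrt_le_sqrt h2
    have h4 : c * √(Real.log Q) ≤ √(Real.log Q1) := by
      have := Real.sqrt_nonneg (Real.log Q)
      nlinarith
    calc c * Real.exp (c * √(Real.log Q)) ≤
          Real.exp (-√(Real.log Q1)) * Real.exp (√(Real.log Q1)) :=
          mul_le_mul hcQ (Real.exp_le_exp.2 h4) (Real.exp_pos _).le (Real.exp_pos _).le
      _ = 1 := by rw [← Real.exp_add]; simp
      _ ≤ q := hq1
  · -- large `Q`
    have hQα : 2 / α < Q := lt_of_le_of_lt (le_max_left _ _) hQQ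
    have hQa : Real.log a ^ 2 < Q := by
      have := lt_of_le_of_lt (le_max_right (2 / α) (Real.log a ^ 2 + 1)) hQQ
      linarith
    have h1Q : 1 / Q < α := by
      rw [div_lt_iff₀ hα0] at hQα
      rw [div_lt_iff₀ hQ0]
      linarith
    have hqα : α ≤ q * α := by nlinarith
    have hhpos : (0 : ℝ) < h := by
      have := (abs_le.1 happ).2
      linarith
    have hh1 : 1 ≤ h := by
      have : 0 < h := by exact_mod_cast hhpos
      omega
    obtain ⟨N, hN⟩ := Int.eq_ofNat_of_zero_le (by omega : 0 ≤ h)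
    have hN1 : 1 ≤ N := by omega
    have hNq : N ≤ q := by
      have h3 : (h : ℝ) < q + 1 := by
        have h4 := (abs_le.1 happ).1
        have h5 : 1 / Q ≤ 1 := by rw [div_le_one hQ0]; linarith
        nlinarith
      have h6 : (N : ℝ) < q + 1 := by
        rw [hN] at h3
        exact_mod_cast h3
      have h7 : N < q + 1 := by exact_mod_cast h6
      omega
    have h8 := hlfl q N hq0 hN1 hNq
    have h9 : |(q : ℝ) * Real.log 2 - N * Real.log a| = Real.log a * |(q : ℝ) * α - h| := by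
      have e : (q : ℝ) * Real.log 2 - N * Real.log a = Real.log a * ((q : ℝ) * α - h) := by
        rw [hα, hN]; push_cast; field_simp
      rw [e, abs_mul, abs_of_pos hla]
    rw [h9] at h8
    have h10 : Real.exp (-(B * (1 + Real.log q) ^ 2)) ≤ Real.log a * (1 / Q) :=
      h8.trans (mul_le_mul_of_nonneg_left happ hla.le)
    have h11 : Real.log Q / 2 ≤ B * (1 + Real.log q) ^ 2 := by
      have h12 := Real.log_le_log (Real.exp_pos _) h10
      rw [Real.log_exp, Real.log_mul hla.ne' (by positivity), one_div, Real.log_inv] at h12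
      have h13 : Real.log (Real.log a ^ 2) ≤ Real.log Q := Real.log_le_log (by positivity) hQa.le
      rw [Real.log_pow] at h13
      push_cast at h13
      linarith
    have hlq : 0 ≤ Real.log q := Real.log_nonneg hq1
    have h12 : c2 * √(Real.log Q) ≤ 1 + Real.log q := by
      have h13 : Real.log Q / (2 * B) ≤ (1 + Real.log q) ^ 2 := by
        rw [div_le_iff₀ (by positivity)]
        linarith
      have h14 := Real.sqrt_le_sqrt h13
      rw [Real.sqrt_sq (by linarith), Real.sqrt_div' _ (by positivity)] at h14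
      rw [hc2, one_div, inv_mul_eq_div]
      exact h14
    have h13 : c * √(Real.log Q) ≤ 1 + Real.log q :=
      (mul_le_mul_of_nonneg_right hcc2 (Real.sqrt_nonneg _)).trans h12
    calc c * Real.exp (c * √(Real.log Q)) ≤ Real.exp (-1) * Real.exp (1 + Real.log q) :=
          mul_le_mul hce (Real.exp_le_exp.2 h13) (Real.exp_pos _).le (Real.exp_pos _).le
      _ = q := by rw [← Real.exp_add]; simp [Real.exp_log hqr]

end Pool.Agent.W5h23.G
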