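import Mathlib
import Pool.Agent.TH926.OSG.Cyc
import Pool.Agent.W5h23.RatRot

set_option autoImplicit false

/-!
Benford's law for the maps `x/2` (`x` even), `(a x + b)/2` (`x` odd): blocks.
-/

namespace Pool.Agent.W5h23.G

open Finset Pool.Agent.TH926.OSG

variable {a b : ℤ}

theorem log_one_add {t : ℝ} (ht : |t| ≤ 1 / 3) : |Real.log (1 + t)| ≤ 3 / 2 * |t| := by
  have h := abs_le.1 ht
  have h1 : 0 < 1 + t := by linarith
  have a1 := Real.log_le_sub_one_of_pos h1
  have b1 := Real.one_sub_inv_le_log_of_pos h1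
  have c1 : t ≤ |t| := le_abs_self _
  have c2 : -t ≤ |t| := neg_le_abs _
  have c3 : 0 ≤ |t| := abs_nonneg _
  rw [abs_le]
  constructor
  · have : (1 + t)⁻¹ ≤ 1 + 3 / 2 * |t| := by
      rw [inv_le_comm₀ h1 (by linarith)]
      rw [inv_eq_one_div, div_le_iff₀ (by linarith)]
      nlinarith
    linarith
  · linarith

/-- one odd step -/
theorem log_step' (H : Par a b) {y : ℤ} {N : ℝ} (hN : |(b : ℝ)| ≤ N) (hy : N ≤ |(y : ℝ)|) :
    |Real.log |(a : ℝ) * y + b| - Real.log |(y : ℝ)| - Real.log a| ≤ |(b : ℝ)| / (2 * N) := by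
  have hA := H.a_ge
  have hB := H.b_ge
  have hA0 : (0 : ℝ) < a := by linarith
  have hN0 : 0 < N := by linarith
  have hy0 : 0 < |(y : ℝ)| := by linarith
  have hyne : (y : ℝ) ≠ 0 := abs_pos.1 hy0
  set t : ℝ := b / (a * y) with ht
  have htb : |t| ≤ |(b : ℝ)| / (3 * N) := by
    rw [ht, abs_div, abs_mul, abs_of_pos hA0, div_le_div_iff₀ (by positivity) (by positivity)]
    apply mul_le_mul_of_nonneg_left _ (abs_nonneg _)
    nlinarith
  have htb2 : |t| ≤ 1 / 3 := by
    refine htb.trans ?_
    rw [div_le_div_iff₀ (by positivity) (by norm_num)]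
    linarith
  have h1t : 0 < 1 + t := by have := abs_le.1 htb2; linarith
  have e1 : (a : ℝ) * y + b = a * y * (1 + t) := by rw [ht]; field_simp
  have e2 : Real.log |(a : ℝ) * y + b| = Real.log a + Real.log |(y : ℝ)| + Real.log (1 + t) := by
    rw [e1, abs_mul, abs_mul, abs_of_pos hA0, abs_of_pos h1t, Real.log_mul (by positivity) h1t.ne',
      Real.log_mul hA0.ne' hy0.ne']
  have e3 : Real.log |(a : ℝ) * y + b| - Real.log |(y : ℝ)| - Real.log a = Real.log (1 + t) := by
    rw [e2]; ring
  rw [e3]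
  refine (log_one_add htb2).trans ?_
  calc 3 / 2 * |t| ≤ 3 / 2 * (|(b : ℝ)| / (3 * N)) := mul_le_mul_of_nonneg_left htb (by norm_num)
    _ = |(b : ℝ)| / (2 * N) := by field_simp

/-- the position of the iterates along a segment -/
theorem log_iter_seg (H : Par a b) {x : ℤ} {N : ℝ} (hN : |(b : ℝ)| ≤ N) (k : ℕ)
    (h : ∀ j < k, N ≤ |(((T a b)^[j] x : ℤ) : ℝ)|) :
    |Real.log |(((T a b)^[k] x : ℤ) : ℝ)| - Real.log |(x : ℝ)| + k * Real.log 2 -
      od a b k x * Real.log a| ≤ k * (|(b : ℝ)| / (2 * N)) := by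
  have hB := H.b_ge
  have hN0 : 0 < N := by linarith
  induction k with
  | zero => simp [od]
  | succ k ih =>
    have ih' := ih (fun j hj => h j (by omega))
    have hk := h k (by omega)
    rw [Function.iterate_succ_apply']
    set z := (T a b)^[k] x with hz
    have hz0 : 0 < |(z : ℝ)| := by linarith
    have hzne : (z : ℝ) ≠ 0 := abs_pos.1 hz0
    rcases par z with h' | h'
    · rw [od_succ_even h']
      have h1 := T_even (a := a) (b := b) h'
      have h2 : (2 : ℝ) * ((T a b z : ℤ) : ℝ) = (z : ℝ) := by exact_mod_cast h1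
      have h3 : Real.log |(z : ℝ)| = Real.log 2 + Real.log |((T a b z : ℤ) : ℝ)| := by
        rw [← h2, abs_mul, Real.log_mul (by norm_num)]
        · norm_num
        · intro h0
          rw [← h2, abs_mul, h0, mul_zero] at hz0
          exact lt_irrefl _ hz0
      rw [h3] at ih'
      push_cast
      have e : Real.log |((T a b z : ℤ) : ℝ)| - Real.log |(x : ℝ)| + ((k : ℝ) + 1) * Real.log 2 -
          od a b k x * Real.log a = Real.log 2 + Real.log |((T a b z : ℤ) : ℝ)| - Real.log |(x : ℝ)| +
          k * Real.log 2 - od a b k x * Real.log a := by ring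
      rw [e]
      have : 0 ≤ |(b : ℝ)| / (2 * N) := by positivity
      linarith
    · rw [od_succ_odd h']
      have h1 := T_odd H h'
      have h2 : (2 : ℝ) * ((T a b z : ℤ) : ℝ) = a * (z : ℝ) + b := by exact_mod_cast h1
      have h4 := log_step' H hN hk
      have hA := H.a_ge
      have hne : (a : ℝ) * z + b ≠ 0 := by
        intro h0
        have h5 : |(a : ℝ) * z| = |(b : ℝ)| := by
          have : (a : ℝ) * z = -b := by linarith
          rw [this, abs_neg]
        rw [abs_mul, abs_of_pos (by linarith)] at h5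
        nlinarith
      have hTz : ((T a b z : ℤ) : ℝ) ≠ 0 := by
        intro h0
        rw [h0, mul_zero] at h2
        exact hne h2.symm
      have h3 : Real.log |((T a b z : ℤ) : ℝ)| = Real.log |a * (z : ℝ) + b| - Real.log 2 := by
        rw [← h2, abs_mul, Real.log_mul (by norm_num) (abs_ne_zero.2 hTz)]
        norm_num
      rw [h3]
      push_cast
      have e : Real.log |a * (z : ℝ) + b| - Real.log 2 - Real.log |(x : ℝ)| + ((k : ℝ) + 1) * Real.log 2 -
          ((od a b k x : ℝ) + 1) * Real.log a = (Real.log |(z : ℝ)| - Real.log |(x : ℝ)| +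
          k * Real.log 2 - od a b k x * Real.log a) +
          (Real.log |a * (z : ℝ) + b| - Real.log |(z : ℝ)| - Real.log a) := by ring
      rw [e]
      refine (abs_add_le _ _).trans ?_
      linarith

/-- the elements whose absolute value has its base `a` mantissa in `[A, B)` -/
def Man (a : ℤ) (A B : ℝ) (x : ℤ) : Prop :=
  A ≤ Int.fract (Real.logb a |(x : ℝ)|) ∧ Int.fract (Real.logb a |(x : ℝ)|) < B

noncomputable instance (a : ℤ) (A B : ℝ) : DecidablePred (Man a A B) := fun _ => Classical.dec _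

/-- **one block** -/
theorem block (H : Par a b) {x : ℤ} {N : ℝ} (hN : |(b : ℝ)| ≤ N) {q : ℕ} {h : ℤ} (hq : 0 < q)
    (hcop : IsCoprime h (q : ℤ)) (hα : |(q : ℝ) * (Real.log 2 / Real.log a) - h| ≤ 1 / q)
    (hx : ∀ j < q, N ≤ |(((T a b)^[j] x : ℤ) : ℝ)|) {A B : ℝ} (hA : 0 ≤ A) (hAB : A ≤ B)
    (hB : B ≤ 1) :
    |(((range q).filter fun i => Man a A B ((T a b)^[i] x)).card : ℝ) - (B - A) * q| ≤
      3 + (q : ℝ) ^ 2 * (|(b : ℝ)| / N) := by
  classical
  have hbb := H.b_ge
  have hla := H.log_pos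
  have hla0 : 0 < Real.log a := by linarith
  have hN0 : 0 < N := by linarith
  have hqr : (0 : ℝ) < q := by exact_mod_cast hq
  set ε : ℝ := q * (|(b : ℝ)| / (2 * N)) + 1 / q with hε
  have hε0 : 0 ≤ ε := by positivity
  have hdisc := count_disc (range q) (fun t => t) (fun _ _ _ _ h => h) q hq
    (fun s hs => mem_range.1 hs) (card_range q) (-h) (Real.log |(x : ℝ)| / Real.log a)
    ε hε0 (fun i => Real.logb a |(((T a b)^[i] x : ℤ) : ℝ)|) (by
      intro t ht
      rw [mem_range] at ht
      refine ⟨(od a b t x : ℤ), ?_⟩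
      have h1 := log_iter_seg H hN t (fun j hj => hx j (by omega))
      have htr : (t : ℝ) ≤ q := by exact_mod_cast ht.le
      have ht0 : (0 : ℝ) ≤ t := Nat.cast_nonneg t
      have e : Real.logb a |(((T a b)^[t] x : ℤ) : ℝ)| - Real.log |(x : ℝ)| / Real.log a -
          (t : ℝ) * (((-h : ℤ) : ℝ) / q) - ((od a b t x : ℤ) : ℝ) =
          (Real.log |(((T a b)^[t] x : ℤ) : ℝ)| - Real.log |(x : ℝ)| + t * Real.log 2 -
          od a b t x * Real.log a) / Real.log a - ((t : ℝ) / q) * ((q : ℝ) *
          (Real.log 2 / Real.log a) - h) := by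
        simp only [Real.logb]
        push_cast
        field_simp
        ring
      rw [e]
      refine (abs_sub _ _).trans ?_
      rw [hε]
      apply add_le_add
      · rw [abs_div, abs_of_pos hla0, div_le_iff₀ hla0]
        refine h1.trans ?_
        have h2 : (t : ℝ) * (|(b : ℝ)| / (2 * N)) ≤ q * (|(b : ℝ)| / (2 * N)) :=
          mul_le_mul_of_nonneg_right htr (by positivity)
        have h3 : 0 ≤ q * (|(b : ℝ)| / (2 * N)) := by positivity
        nlinarith
      · rw [abs_mul, abs_of_nonneg (by positivity)]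
        calc (t : ℝ) / q * |(q : ℝ) * (Real.log 2 / Real.log a) - h| ≤ 1 * (1 / q) := by
              apply mul_le_mul _ hα (abs_nonneg _) (by norm_num)
              rw [div_le_one hqr]
              exact htr
          _ = 1 / q := one_mul _) A B hA hAB hB
  have hgcd : Int.gcd (-h) (q : ℤ) = 1 := by
    rw [Int.neg_gcd]
    exact Int.isCoprime_iff_gcd_eq_one.1 hcop
  rw [hgcd] at hdisc
  have hcount : ((range q).filter fun i => Man a A B ((T a b)^[i] x)) =
      ((range q).filter fun s => A ≤ Int.fract (Real.logb a |(((T a b)^[s] x : ℤ) : ℝ)|) ∧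
        Int.fract (Real.logb a |(((T a b)^[s] x : ℤ) : ℝ)|) < B) := by
    apply filter_congr
    intro i _
    rfl
  rw [hcount]
  refine hdisc.trans (le_of_eq ?_)
  rw [hε]
  push_cast
  field_simp
  ring

/-- **cycles**, with a given approximation -/
theorem cycle_disc (H : Par a b) {Z : Finset ℤ} (hZ : IsCycle a b Z) {N : ℝ} (hN : |(b : ℝ)| ≤ N)
    (hmin : ∀ x ∈ Z, N ≤ |(x : ℝ)|) {q : ℕ} {h : ℤ} (hq : 0 < q)
    (hcop : IsCoprime h (q : ℤ)) (hα : |(q : ℝ) * (Real.log 2 / Real.log a) - h| ≤ 1 / q)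
    {A B : ℝ} (hA : 0 ≤ A) (hAB : A ≤ B) (hB : B ≤ 1) :
    |((Z.filter fun x => Man a A B x).card : ℝ) - (B - A) * Z.card| ≤
      (3 / q + q * (|(b : ℝ)| / N)) * Z.card := by
  classical
  have hqr : (0 : ℝ) < q := by exact_mod_cast hq
  -- the shift is a bijection of the cycle
  have hinjT : Set.InjOn (T a b) Z := by
    obtain ⟨x0, hx0, hpos, hset, hcard, -, -⟩ := hZ.normal
    have hper : ∀ y ∈ Z, y ∈ Function.periodicPts (T a b) := by
      intro y hy
      refine ⟨Z.card, hZ.card_pos, ?_⟩
      exact hZ.per hy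
    intro x hx y hy hxy
    exact (Function.bijOn_periodicPts (T a b)).injOn (hper x hx) (hper y hy) hxy
  have himg : Z.image (T a b) = Z := by
    apply Finset.eq_of_subset_of_card_le
    · intro y hy
      rw [mem_image] at hy
      obtain ⟨x, hx, rfl⟩ := hy
      exact hZ.closed hx 1
    · rw [card_image_of_injOn hinjT]
  have hsum : ∀ (g : ℤ → ℝ) (j : ℕ), ∑ x ∈ Z, g ((T a b)^[j] x) = ∑ x ∈ Z, g x := by
    intro g j
    induction j with
    | zero => simp
    | succ j ih =>
      rw [← ih]
      conv_rhs => rw [← himg]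
      rw [sum_image (fun x hx y hy h => hinjT hx hy h)]
      rfl
  have hblock : ∀ x ∈ Z, |(((range q).filter fun i => Man a A B ((T a b)^[i] x)).card : ℝ) -
      (B - A) * q| ≤ 3 + (q : ℝ) ^ 2 * (|(b : ℝ)| / N) := by
    intro x hx
    exact block H hN hq hcop hα (fun j _ => hmin _ (hZ.closed hx j)) hA hAB hB
  have htot : ∑ x ∈ Z, ((((range q).filter fun i => Man a A B ((T a b)^[i] x)).card : ℝ)) =
      q * ((Z.filter fun x => Man a A B x).card : ℝ) := by
    have e1 : ∀ x, (((range q).filter fun i => Man a A B ((T a b)^[i] x)).card : ℝ) =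
        ∑ i ∈ range q, if Man a A B ((T a b)^[i] x) then (1 : ℝ) else 0 := by
      intro x
      rw [card_filter]; push_cast; rfl
    simp_rw [e1]
    rw [sum_comm]
    have e2 : ∀ i ∈ range q, (∑ x ∈ Z, if Man a A B ((T a b)^[i] x) then (1 : ℝ) else 0) =
        ((Z.filter fun x => Man a A B x).card : ℝ) := by
      intro i _
      rw [hsum (fun x => if Man a A B x then (1 : ℝ) else 0) i, card_filter]
      push_cast; rfl
    rw [sum_congr rfl e2, sum_const, card_range, nsmul_eq_mul]
  have h1 : |∑ x ∈ Z, ((((range q).filter fun i => Man a A B ((T a b)^[i] x)).card : ℝ) -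
      (B - A) * q)| ≤ ∑ x ∈ Z, (3 + (q : ℝ) ^ 2 * (|(b : ℝ)| / N)) :=
    (abs_sum_le_sum_abs _ _).trans (sum_le_sum hblock)
  rw [sum_sub_distrib, htot, sum_const, sum_const, nsmul_eq_mul, nsmul_eq_mul] at h1
  have h2 : (q : ℝ) * ((Z.filter fun x => Man a A B x).card : ℝ) - Z.card * ((B - A) * q) =
      q * (((Z.filter fun x => Man a A B x).card : ℝ) - (B - A) * Z.card) := by ring
  rw [h2, abs_mul, abs_of_pos hqr] at h1
  have h3 : (q : ℝ) * |((Z.filter fun x => Man a A B x).card : ℝ) - (B - A) * Z.card| ≤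
      q * ((3 / q + q * (|(b : ℝ)| / N)) * Z.card) := by
    refine h1.trans (le_of_eq ?_)
    field_simp
  exact le_of_mul_le_mul_left h3 hqr

/-- **segments**, with a given approximation -/
theorem seg_disc (H : Par a b) {N : ℝ} (hN : |(b : ℝ)| ≤ N) {q : ℕ} {h : ℤ} (hq : 0 < q)
    (hcop : IsCoprime h (q : ℤ)) (hα : |(q : ℝ) * (Real.log 2 / Real.log a) - h| ≤ 1 / q)
    {A B : ℝ} (hA : 0 ≤ A) (hAB : A ≤ B) (hB : B ≤ 1) (L : ℕ) : ∀ x : ℤ,
    (∀ j < L, N ≤ |(((T a b)^[j] x : ℤ) : ℝ)|) →
    |(((range L).filter fun i => Man a A B ((T a b)^[i] x)).card : ℝ) - (B - A) * L| ≤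
      (L / q) * (3 + (q : ℝ) ^ 2 * (|(b : ℝ)| / N)) + q := by
  classical
  have hbb := H.b_ge
  have hN0 : 0 < N := by linarith
  have hqr : (0 : ℝ) < q := by exact_mod_cast hq
  induction L using Nat.strong_induction_on with
  | _ L ih =>
    intro x hx
    rcases Nat.lt_or_ge L q with hLq | hLq
    · have h1 : ((range L).filter fun i => Man a A B ((T a b)^[i] x)).card ≤ L :=
        (card_filter_le _ _).trans (by simp)
      have h1' : (((range L).filter fun i => Man a A B ((T a b)^[i] x)).card : ℝ) ≤ L := by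
        exact_mod_cast h1
      have h2 : (L : ℝ) ≤ q := by exact_mod_cast hLq.le
      have hL0 : (0 : ℝ) ≤ L := Nat.cast_nonneg L
      have h3 : 0 ≤ (L / q) * (3 + (q : ℝ) ^ 2 * (|(b : ℝ)| / N)) := by positivity
      have h4 : 0 ≤ (((range L).filter fun i => Man a A B ((T a b)^[i] x)).card : ℝ) :=
        Nat.cast_nonneg _
      have h5 : (B - A) * L ≤ L := by nlinarith
      have h6 : 0 ≤ (B - A) * L := mul_nonneg (by linarith) hL0
      rw [abs_le]
      constructor <;> linarith
    · obtain ⟨n, rfl⟩ : ∃ n, L = q + n := ⟨L - q, by omega⟩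
      have hb := block H hN hq hcop hα (fun j hj => hx j (by omega)) hA hAB hB
      have hr := ih n (by omega) ((T a b)^[q] x) (by
        intro j hj
        rw [← Function.iterate_add_apply]
        exact hx _ (by omega))
      have hsplit : ((range (q + n)).filter fun i => Man a A B ((T a b)^[i] x)).card =
          ((range q).filter fun i => Man a A B ((T a b)^[i] x)).card +
          ((range n).filter fun i => Man a A B ((T a b)^[i] ((T a b)^[q] x))).card := by
        rw [card_filter, card_filter, card_filter, sum_range_add]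
        congr 1
        apply sum_congr rfl
        intro i _
        rw [← Function.iterate_add_apply, add_comm i q]
      rw [hsplit]
      push_cast
      have e : ((((range q).filter fun i => Man a A B ((T a b)^[i] x)).card : ℝ) +
          (((range n).filter fun i => Man a A B ((T a b)^[i] ((T a b)^[q] x))).card : ℝ)) -
          (B - A) * (q + n) =
          ((((range q).filter fun i => Man a A B ((T a b)^[i] x)).card : ℝ) - (B - A) * q) +
          ((((range n).filter fun i => Man a A B ((T a b)^[i] ((T a b)^[q] x))).card : ℝ) -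
          (B - A) * n) := by ring
      rw [e]
      refine ((abs_add_le _ _).trans (add_le_add hb hr)).trans (le_of_eq ?_)
      field_simp
      ring

end Pool.Agent.W5h23.G
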