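import Mathlib
import Pool.Agent.W5h23.G.Block
import Pool.Agent.W5h23.G.Approx

set_option autoImplicit false

/-!
Benford's law for the maps `x/2` (`x` even), `(a x + b)/2` (`x` odd).
-/

namespace Pool.Agent.W5h23.G

open Finset Pool.Agent.TH926.OSG

theorem par3 {b : ℤ} (hb : b % 2 = 1) : Par 3 b := ⟨by norm_num, le_rfl, hb⟩

/-- cycles of `3x+b` -/
theorem benford_cycles3 : ∃ C : ℝ, 0 < C ∧ ∀ b : ℤ, b % 2 = 1 → ∀ Z : Finset ℤ, IsCycle 3 b Z →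
    ∀ N : ℝ, |(b : ℝ)| ≤ N → (∀ x ∈ Z, N ≤ |(x : ℝ)|) → ∀ A B : ℝ, 0 ≤ A → A ≤ B → B ≤ 1 →
    |((Z.filter fun x => Man 3 A B x).card : ℝ) - (B - A) * Z.card| ≤
      C * Z.card * (|(b : ℝ)| / N) ^ (1 / 14 : ℝ) := by
  obtain ⟨c, hc, happ⟩ := approx3
  refine ⟨3 / c + 2, by positivity, ?_⟩
  intro b hb Z hZ N hN hmin A B hA hAB hB
  have H := par3 hb
  have hbb := H.b_ge
  have hb0 : 0 < |(b : ℝ)| := by linarith
  have hN0 : 0 < N := by linarith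
  set R : ℝ := N / |(b : ℝ)| with hR
  have hR1 : 1 ≤ R := by rw [hR, le_div_iff₀ hb0]; linarith
  have hR0 : 0 < R := by linarith
  have hRinv : |(b : ℝ)| / N = R⁻¹ := by rw [hR, inv_div]
  obtain ⟨q, h, hq, hq1, hq2, hcop, hα⟩ := happ (R ^ (13 / 14 : ℝ)) (Real.one_le_rpow hR1 (by norm_num))
  have hqr : (0 : ℝ) < q := by exact_mod_cast hq
  have hd := cycle_disc H hZ hN hmin hq hcop (by push_cast; exact hα) hA hAB hB
  refine hd.trans ?_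
  rw [hRinv, Real.inv_rpow hR0.le]
  have h1 : 3 / (q : ℝ) ≤ 3 / c * (R ^ (1 / 14 : ℝ))⁻¹ := by
    rw [← Real.rpow_mul hR0.le] at hq1
    norm_num at hq1
    calc 3 / (q : ℝ) ≤ 3 / (c * R ^ (1 / 14 : ℝ)) :=
          div_le_div_of_nonneg_left (by norm_num) (by positivity) hq1
      _ = 3 / c * (R ^ (1 / 14 : ℝ))⁻¹ := by field_simp
  have h2 : (q : ℝ) * R⁻¹ ≤ 2 * (R ^ (1 / 14 : ℝ))⁻¹ := by
    have e : R ^ (13 / 14 : ℝ) * R⁻¹ = (R ^ (1 / 14 : ℝ))⁻¹ := by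
      rw [← Real.rpow_neg_one R, ← Real.rpow_add hR0, ← Real.rpow_neg hR0.le]
      norm_num
    calc (q : ℝ) * R⁻¹ ≤ 2 * R ^ (13 / 14 : ℝ) * R⁻¹ :=
          mul_le_mul_of_nonneg_right hq2 (by positivity)
      _ = 2 * (R ^ (1 / 14 : ℝ))⁻¹ := by rw [mul_assoc, e]
  calc (3 / (q : ℝ) + q * R⁻¹) * Z.card ≤
        (3 / c * (R ^ (1 / 14 : ℝ))⁻¹ + 2 * (R ^ (1 / 14 : ℝ))⁻¹) * Z.card :=
        mul_le_mul_of_nonneg_right (add_le_add h1 h2) (by positivity)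
    _ = (3 / c + 2) * Z.card * (R ^ (1 / 14 : ℝ))⁻¹ := by ring

/-- segments of trajectories of `3x+b` -/
theorem benford_segments3 : ∃ C : ℝ, 0 < C ∧ ∀ b : ℤ, b % 2 = 1 → ∀ N : ℝ, |(b : ℝ)| ≤ N →
    ∀ (L : ℕ) (x : ℤ), (∀ j < L, N ≤ |(((T 3 b)^[j] x : ℤ) : ℝ)|) →
    ∀ A B : ℝ, 0 ≤ A → A ≤ B → B ≤ 1 →
    |(((range L).filter fun i => Man 3 A B ((T 3 b)^[i] x)).card : ℝ) - (B - A) * L| ≤
      C * (L : ℝ) ^ (13 / 14 : ℝ) + C * L * (|(b : ℝ)| / N) ^ (1 / 14 : ℝ) := by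
  obtain ⟨c, hc, happ⟩ := approx3
  refine ⟨3 / c + 2, by positivity, ?_⟩
  intro b hb N hN L x hx A B hA hAB hB
  rcases Nat.eq_zero_or_pos L with hL0 | hL0
  · subst hL0
    simp
  have H := par3 hb
  have hbb := H.b_ge
  have hb0 : 0 < |(b : ℝ)| := by linarith
  have hN0 : 0 < N := by linarith
  have hLr : (1 : ℝ) ≤ L := by exact_mod_cast hL0
  have hLpos : (0 : ℝ) < L := by linarith
  set R : ℝ := N / |(b : ℝ)| with hR
  have hR1 : 1 ≤ R := by rw [hR, le_div_iff₀ hb0]; linarith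
  have hR0 : 0 < R := by linarith
  have hRinv : |(b : ℝ)| / N = R⁻¹ := by rw [hR, inv_div]
  set M : ℝ := min L R with hM
  have hM1 : 1 ≤ M := le_min hLr hR1
  have hM0 : 0 < M := by linarith
  have hML : M ≤ L := min_le_left _ _
  have hMR : M ≤ R := min_le_right _ _
  obtain ⟨q, h, hq, hq1, hq2, hcop, hα⟩ := happ (M ^ (13 / 14 : ℝ)) (Real.one_le_rpow hM1 (by norm_num))
  have hqr : (0 : ℝ) < q := by exact_mod_cast hq
  have hd := seg_disc H hN hq hcop (by push_cast; exact hα) hA hAB hB L x hx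
  refine hd.trans ?_
  rw [hRinv, Real.inv_rpow hR0.le]
  have e0 : ∀ Y : ℝ, 0 < Y → Y ^ (13 / 14 : ℝ) * Y⁻¹ = (Y ^ (1 / 14 : ℝ))⁻¹ := by
    intro Y hY
    rw [← Real.rpow_neg_one Y, ← Real.rpow_add hY, ← Real.rpow_neg hY.le]
    norm_num
  have hLL : (L : ℝ) * ((L : ℝ) ^ (1 / 14 : ℝ))⁻¹ = (L : ℝ) ^ (13 / 14 : ℝ) := by
    rw [← e0 _ hLpos]
    field_simp
  have h1 : 3 / (q : ℝ) ≤ 3 / c * (((L : ℝ) ^ (1 / 14 : ℝ))⁻¹ + (R ^ (1 / 14 : ℝ))⁻¹) := by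
    rw [← Real.rpow_mul hM0.le] at hq1
    norm_num at hq1
    have h3 : (M ^ (1 / 14 : ℝ))⁻¹ ≤ ((L : ℝ) ^ (1 / 14 : ℝ))⁻¹ + (R ^ (1 / 14 : ℝ))⁻¹ := by
      have p1 : 0 < ((L : ℝ) ^ (1 / 14 : ℝ))⁻¹ := by positivity
      have p2 : 0 < (R ^ (1 / 14 : ℝ))⁻¹ := by positivity
      rcases min_choice (L : ℝ) R with h | h
      · rw [hM, h]; linarith
      · rw [hM, h]; linarith
    calc 3 / (q : ℝ) ≤ 3 / (c * M ^ (1 / 14 : ℝ)) :=
          div_le_div_of_nonneg_left (by norm_num) (by positivity) hq1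
      _ = 3 / c * (M ^ (1 / 14 : ℝ))⁻¹ := by field_simp
      _ ≤ _ := mul_le_mul_of_nonneg_left h3 (by positivity)
  have hMR' : M ^ (13 / 14 : ℝ) ≤ R ^ (13 / 14 : ℝ) := Real.rpow_le_rpow hM0.le hMR (by norm_num)
  have hML' : M ^ (13 / 14 : ℝ) ≤ (L : ℝ) ^ (13 / 14 : ℝ) := Real.rpow_le_rpow hM0.le hML (by norm_num)
  have h2 : (q : ℝ) * R⁻¹ ≤ 2 * (R ^ (1 / 14 : ℝ))⁻¹ := by
    calc (q : ℝ) * R⁻¹ ≤ 2 * R ^ (13 / 14 : ℝ) * R⁻¹ :=
          mul_le_mul_of_nonneg_right (hq2.trans (by linarith)) (by positivity)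
      _ = 2 * (R ^ (1 / 14 : ℝ))⁻¹ := by rw [mul_assoc, e0 _ hR0]
  have h3 : (q : ℝ) ≤ 2 * (L : ℝ) ^ (13 / 14 : ℝ) := hq2.trans (by linarith)
  have e1 : ((L : ℝ) / q) * (3 + (q : ℝ) ^ 2 * R⁻¹) = L * (3 / q + q * R⁻¹) := by
    field_simp
  rw [e1]
  calc (L : ℝ) * (3 / q + q * R⁻¹) + q
      ≤ L * (3 / c * (((L : ℝ) ^ (1 / 14 : ℝ))⁻¹ + (R ^ (1 / 14 : ℝ))⁻¹) +
          2 * (R ^ (1 / 14 : ℝ))⁻¹) + 2 * (L : ℝ) ^ (13 / 14 : ℝ) := by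
        have := mul_le_mul_of_nonneg_left (add_le_add h1 h2) hLpos.le
        linarith
    _ = 3 / c * (L * ((L : ℝ) ^ (1 / 14 : ℝ))⁻¹) + 2 * (L : ℝ) ^ (13 / 14 : ℝ) +
          (3 / c + 2) * L * (R ^ (1 / 14 : ℝ))⁻¹ := by ring
    _ = (3 / c + 2) * (L : ℝ) ^ (13 / 14 : ℝ) + (3 / c + 2) * L * (R ^ (1 / 14 : ℝ))⁻¹ := by
        rw [hLL]; ring

/-- cycles of `T_{a,b}`, `a` prime -/
theorem benford_cycles_prime {a : ℕ} (ha : a.Prime) (ha2 : a ≠ 2) : ∃ C c : ℝ, 0 < C ∧ 0 < c ∧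
    ∀ b : ℤ, b % 2 = 1 → ∀ Z : Finset ℤ, IsCycle a b Z →
    ∀ N : ℝ, |(b : ℝ)| ≤ N → (∀ x ∈ Z, N ≤ |(x : ℝ)|) → ∀ A B : ℝ, 0 ≤ A → A ≤ B → B ≤ 1 →
    |((Z.filter fun x => Man a A B x).card : ℝ) - (B - A) * Z.card| ≤
      C * Z.card * Real.exp (-(c * √(Real.log (N / |(b : ℝ)|)))) := by
  obtain ⟨c, hc, happ⟩ := approx_prime ha ha2
  have ha3 : 3 ≤ a := by
    have := ha.two_le
    omega
  have haodd : a % 2 = 1 := by
    rcases ha.eq_two_or_odd with h | h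
    · exact absurd h ha2
    · exact h
  set c' : ℝ := min (c / 2) (1 / 2) with hc'
  have hc'0 : 0 < c' := lt_min (by positivity) (by norm_num)
  refine ⟨3 / c + 2 * Real.exp (1 / 8), c', by positivity, hc'0, ?_⟩
  intro b hb Z hZ N hN hmin A B hA hAB hB
  have H : Par a b := ⟨by omega, by exact_mod_cast ha3, hb⟩
  have hbb := H.b_ge
  have hb0 : 0 < |(b : ℝ)| := by linarith
  have hN0 : 0 < N := by linarith
  set R : ℝ := N / |(b : ℝ)| with hR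
  have hR1 : 1 ≤ R := by rw [hR, le_div_iff₀ hb0]; linarith
  have hR0 : 0 < R := by linarith
  have hRinv : |(b : ℝ)| / N = R⁻¹ := by rw [hR, inv_div]
  obtain ⟨q, h, hq, hq1, hq2, hcop, hα⟩ := happ (R ^ (1 / 2 : ℝ)) (Real.one_le_rpow hR1 (by norm_num))
  have hqr : (0 : ℝ) < q := by exact_mod_cast hq
  have hd := cycle_disc H hZ hN hmin hq hcop (by push_cast; exact hα) hA hAB hB
  refine hd.trans ?_
  rw [hRinv]
  set u : ℝ := Real.log R with hu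
  have hu0 : 0 ≤ u := Real.log_nonneg hR1
  set v : ℝ := √u with hv
  have hv0 : 0 ≤ v := Real.sqrt_nonneg _
  have huv : u = v ^ 2 := (Real.sq_sqrt hu0).symm
  clear_value u v
  have h1 : 3 / (q : ℝ) ≤ 3 / c * Real.exp (-(c' * v)) := by
    have e1 : Real.log (R ^ (1 / 2 : ℝ)) = 1 / 2 * u := by rw [Real.log_rpow hR0, hu]
    rw [e1] at hq1
    have h2 : c' * v ≤ c * √(1 / 2 * u) := by
      have h3 : v / 2 ≤ √(1 / 2 * u) := by
        apply Real.le_sqrt_of_sq_le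
        rw [huv]
        nlinarith [sq_nonneg v]
      have h4 : c' ≤ c / 2 := min_le_left _ _
      calc c' * v ≤ c / 2 * v := mul_le_mul_of_nonneg_right h4 hv0
        _ = c * (v / 2) := by ring
        _ ≤ c * √(1 / 2 * u) := mul_le_mul_of_nonneg_left h3 hc.le
    have h3 : c * Real.exp (c' * v) ≤ q :=
      (mul_le_mul_of_nonneg_left (Real.exp_le_exp.2 h2) hc.le).trans hq1
    calc 3 / (q : ℝ) ≤ 3 / (c * Real.exp (c' * v)) :=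
          div_le_div_of_nonneg_left (by norm_num) (by positivity) h3
      _ = 3 / c * Real.exp (-(c' * v)) := by rw [Real.exp_neg]; field_simp
  have h2 : (q : ℝ) * R⁻¹ ≤ 2 * Real.exp (1 / 8) * Real.exp (-(c' * v)) := by
    have e : R ^ (1 / 2 : ℝ) * R⁻¹ = Real.exp (-(u / 2)) := by
      rw [← Real.rpow_neg_one R, ← Real.rpow_add hR0, Real.rpow_def_of_pos hR0, ← hu]
      congr 1
      ring
    have h5 : -(u / 2) ≤ 1 / 8 + -(c' * v) := by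
      have h4 : c' ≤ 1 / 2 := min_le_right _ _
      rw [huv]
      nlinarith [sq_nonneg (v - 1 / 2), mul_le_mul_of_nonneg_right h4 hv0]
    calc (q : ℝ) * R⁻¹ ≤ 2 * R ^ (1 / 2 : ℝ) * R⁻¹ :=
          mul_le_mul_of_nonneg_right hq2 (by positivity)
      _ = 2 * Real.exp (-(u / 2)) := by rw [mul_assoc, e]
      _ ≤ 2 * Real.exp (1 / 8 + -(c' * v)) :=
          mul_le_mul_of_nonneg_left (Real.exp_le_exp.2 h5) (by norm_num)
      _ = 2 * Real.exp (1 / 8) * Real.exp (-(c' * v)) := by rw [Real.exp_add]; ring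
  calc (3 / (q : ℝ) + q * R⁻¹) * Z.card ≤
        (3 / c * Real.exp (-(c' * v)) + 2 * Real.exp (1 / 8) * Real.exp (-(c' * v))) * Z.card :=
        mul_le_mul_of_nonneg_right (add_le_add h1 h2) (Nat.cast_nonneg _)
    _ = (3 / c + 2 * Real.exp (1 / 8)) * Z.card * Real.exp (-(c' * v)) := by ring

end Pool.Agent.W5h23.G
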