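import Mathlib
import Pool.Agent.TH926.OSG.Cyc
import Pool.Agent.W5h23.Entropy2

set_option autoImplicit false

/-!
Segments of trajectories of the maps `T_{a,b}` many of whose terms are polynomially bounded in the
length: positive entropy.
-/

namespace Pool.Agent.W5h23.G

open Finset Pool.Agent.TH926.OSG

/-- the parity word of length `n` under a map `T` -/
def wd (T : ℤ → ℤ) (n : ℕ) (x : ℤ) : Fin n → ℤ := fun j => T^[(j : ℕ)] x % 2

/-- integers whose next parities are mostly in a small set of blocks -/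
theorem count_wd (T : ℤ → ℤ) {n K : ℕ} (Y : Finset ℤ) (W : Finset (Fin n → ℤ)) (J s w : ℝ)
    (hinj : ∀ x ∈ Y, ∀ y ∈ Y, (∀ t < K * n, T^[t] x % 2 = T^[t] y % 2) → x = y)
    (hbad : ∀ x ∈ Y, (((range K).filter fun i => wd T n (T^[i * n] x) ∉ W).card : ℝ) ≤ J)
    (hs0 : 0 < s) (hs1 : s ≤ 1) (hw : (W.card : ℝ) ≤ w) (hw1 : 1 ≤ w) :
    (Y.card : ℝ) ≤ (2 ^ n / s) ^ J * (1 + s) ^ K * w ^ K := by
  classical
  set A : Finset (Fin n → ℤ) := Fintype.piFinset (fun _ : Fin n => ({0, 1} : Finset ℤ)) with hA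
  have hAcard : A.card = 2 ^ n := by
    rw [hA, Fintype.card_piFinset]
    simp
  have hwordA : ∀ x, wd T n x ∈ A := by
    intro x
    rw [hA, Fintype.mem_piFinset]
    intro j
    rw [mem_insert, mem_singleton]
    unfold wd
    omega
  set code : ℤ → (Σ _ : Finset (Fin K), (Fin K → Fin n → ℤ)) := fun x =>
    ⟨univ.filter fun i : Fin K => wd T n (T^[(i : ℕ) * n] x) ∉ W, fun i => wd T n (T^[(i : ℕ) * n] x)⟩
    with hcode
  set tgt : Finset (Σ _ : Finset (Fin K), (Fin K → Fin n → ℤ)) :=
    (univ.filter fun B : Finset (Fin K) => (B.card : ℝ) ≤ J).sigma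
      (fun B => Fintype.piFinset (fun i => if i ∈ B then A else W)) with htgt
  have hcodeinj : Set.InjOn code Y := by
    intro x hx y hy hxy
    rw [hcode] at hxy
    simp only [Sigma.mk.injEq] at hxy
    have h2 := eq_of_heq hxy.2
    apply hinj x hx y hy
    intro t ht
    rcases Nat.eq_zero_or_pos n with hn | hn
    · rw [hn, mul_zero] at ht; omega
    have hi : t / n < K := Nat.div_lt_of_lt_mul (by rw [mul_comm]; exact ht)
    have h3 := congrFun (congrFun h2 ⟨t / n, hi⟩) ⟨t % n, Nat.mod_lt _ hn⟩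
    simp only [wd] at h3
    rw [← Function.iterate_add_apply, ← Function.iterate_add_apply] at h3
    have e : t % n + t / n * n = t := by
      rw [mul_comm]; exact Nat.mod_add_div t n
    rw [e] at h3
    exact h3
  have hmaps : ∀ x ∈ Y, code x ∈ tgt := by
    intro x hx
    rw [htgt, mem_sigma]
    constructor
    · rw [mem_filter]
      refine ⟨mem_univ _, ?_⟩
      refine le_trans (le_of_eq ?_) (hbad x hx)
      rw [hcode]
      simp only
      norm_cast
      rw [← card_map Fin.valEmbedding]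
      congr 1
      ext i
      simp only [mem_map, mem_filter, mem_univ, true_and, Fin.valEmbedding_apply, mem_range]
      constructor
      · rintro ⟨j, hj, rfl⟩
        exact ⟨j.2, hj⟩
      · rintro ⟨hi, h⟩
        exact ⟨⟨i, hi⟩, h, rfl⟩
    · rw [Fintype.mem_piFinset]
      intro i
      rw [hcode]
      simp only [mem_filter, mem_univ, true_and]
      by_cases h : wd T n (T^[(i : ℕ) * n] x) ∈ W
      · rw [if_neg (not_not.2 h)]; exact h
      · rw [if_pos h]; exact hwordA _
  have h1 : Y.card ≤ tgt.card := card_le_card_of_injOn code hmaps hcodeinj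
  have h2 : (tgt.card : ℝ) ≤ (2 ^ n / s) ^ J * (1 + s) ^ K * w ^ K := by
    have hbase : (1 : ℝ) ≤ 2 ^ n / s := by
      rw [le_div_iff₀ hs0]
      have : (1 : ℝ) ≤ 2 ^ n := one_le_pow₀ (by norm_num)
      linarith
    rw [htgt, card_sigma]
    push_cast
    have hterm : ∀ B ∈ (univ.filter fun B : Finset (Fin K) => (B.card : ℝ) ≤ J),
        ((Fintype.piFinset (fun i => if i ∈ B then A else W)).card : ℝ) ≤
          (2 ^ n / s) ^ J * w ^ K * (s ^ B.card * 1 ^ (Fintype.card (Fin K) - B.card)) := by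
      intro B hB
      rw [mem_filter] at hB
      rw [Fintype.card_piFinset]
      push_cast
      have e1 : ∀ i : Fin K, (((if i ∈ B then A else W).card : ℕ) : ℝ) ≤
          (if i ∈ B then (2 : ℝ) ^ n else 1) * w := by
        intro i
        by_cases hi : i ∈ B
        · rw [if_pos hi, if_pos hi, hAcard]
          push_cast
          have : (0 : ℝ) < 2 ^ n := by positivity
          nlinarith
        · rw [if_neg hi, if_neg hi, one_mul]; exact hw
      calc ∏ i : Fin K, (((if i ∈ B then A else W).card : ℕ) : ℝ)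
          ≤ ∏ i : Fin K, ((if i ∈ B then (2 : ℝ) ^ n else 1) * w) :=
            prod_le_prod (fun i _ => by positivity) (fun i _ => e1 i)
        _ = (2 ^ n) ^ B.card * w ^ K := by
            rw [prod_mul_distrib, prod_const, card_univ, Fintype.card_fin, prod_ite_mem,
              univ_inter, prod_const]
        _ ≤ (2 ^ n / s) ^ J * w ^ K * (s ^ B.card * 1 ^ (Fintype.card (Fin K) - B.card)) := by
            have e2 : ((2 : ℝ) ^ n) ^ B.card = (2 ^ n / s) ^ ((B.card : ℕ) : ℝ) * s ^ B.card := by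
              rw [Real.rpow_natCast, ← mul_pow]
              congr 1
              field_simp
            rw [e2]
            have e3 : ((2 : ℝ) ^ n / s) ^ ((B.card : ℕ) : ℝ) ≤ (2 ^ n / s) ^ J :=
              Real.rpow_le_rpow_of_exponent_le hbase hB.2
            have e4 : (0 : ℝ) ≤ s ^ B.card * w ^ K := by positivity
            calc ((2 : ℝ) ^ n / s) ^ ((B.card : ℕ) : ℝ) * s ^ B.card * w ^ K
                = ((2 : ℝ) ^ n / s) ^ ((B.card : ℕ) : ℝ) * (s ^ B.card * w ^ K) := by ring
              _ ≤ (2 ^ n / s) ^ J * (s ^ B.card * w ^ K) := mul_le_mul_of_nonneg_right e3 e4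
              _ = _ := by rw [one_pow]; ring
    calc ∑ B ∈ (univ.filter fun B : Finset (Fin K) => (B.card : ℝ) ≤ J),
          ((Fintype.piFinset (fun i => if i ∈ B then A else W)).card : ℝ)
        ≤ ∑ B ∈ (univ.filter fun B : Finset (Fin K) => (B.card : ℝ) ≤ J),
          (2 ^ n / s) ^ J * w ^ K * (s ^ B.card * 1 ^ (Fintype.card (Fin K) - B.card)) :=
          sum_le_sum hterm
      _ ≤ ∑ B : Finset (Fin K),
          (2 ^ n / s) ^ J * w ^ K * (s ^ B.card * 1 ^ (Fintype.card (Fin K) - B.card)) := by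
          apply sum_le_sum_of_subset_of_nonneg (filter_subset _ _)
          intro B _ _
          positivity
      _ = (2 ^ n / s) ^ J * (1 + s) ^ K * w ^ K := by
          rw [← mul_sum, Fintype.sum_pow_mul_eq_add_pow, Fintype.card_fin, add_comm s 1]
          ring
  have h3 : (Y.card : ℝ) ≤ tgt.card := by exact_mod_cast h1
  exact h3.trans h2

/-- sliding windows: few indices have many bad times -/
theorem slide (L M K n : ℕ) (bad : Finset ℕ) (hM : M + K * n ≤ L) (hbL : ∀ i ∈ bad, i < L) :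
    ∑ i ∈ range M, ((range K).filter fun j => i + j * n ∈ bad).card ≤ K * bad.card := by
  classical
  have e1 : ∀ i, ((range K).filter fun j => i + j * n ∈ bad).card =
      ∑ j ∈ range K, if i + j * n ∈ bad then 1 else 0 := fun i => card_filter _ _
  simp_rw [e1]
  rw [sum_comm]
  have e2 : ∀ j ∈ range K, (∑ i ∈ range M, if i + j * n ∈ bad then 1 else 0) ≤ bad.card := by
    intro j _
    rw [← card_filter]
    apply card_le_card_of_injOn (fun i => i + j * n)
    · intro i hi
      simp only [coe_filter, Set.mem_ofPred_eq] at hi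
      exact hi.2
    · intro i _ i' _ h
      simp only at h
      omega
  refine (sum_le_sum e2).trans ?_
  rw [sum_const, card_range, smul_eq_mul]

/-- **Positive entropy of segments.** -/
theorem seg_entropy (C δ : ℝ) (hC : 1 ≤ C) (hδ : 0 < δ) : ∃ h : ℝ, 0 < h ∧ ∃ P : ℝ,
    ∀ a b : ℤ, Par a b → ∀ (x : ℤ) (L : ℕ), P ≤ L →
    Set.InjOn (fun i => (T a b)^[i] x) (Set.Iio L) →
    δ * L ≤ ((range L).filter fun i => |(((T a b)^[i] x : ℤ) : ℝ)| ≤ (L : ℝ) ^ C).card →
    ∀ n : ℕ, 1 ≤ n → (2 : ℝ) ^ n ≤ (L : ℝ) ^ C →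
    ∀ W : Finset (Fin n → ℤ), (W.card : ℝ) ≤ 2 ^ (h * n) →
    h * L ≤ ((range L).filter fun i => wd (T a b) n ((T a b)^[i] x) ∉ W).card := by
  classical
  set κ : ℝ := 1 / (4 * C) with hκdef
  have hκ : 0 < κ := by positivity
  obtain ⟨s, θ, hs0, hs1, hθ, hexp⟩ := Pool.Agent.W5h23.exponent_bound hκ
  set h : ℝ := min (κ / 3) (θ * δ / 2) with hh
  have hh0 : 0 < h := lt_min (by positivity) (by positivity)
  have hl2 : 0 < Real.log 2 := Real.log_pos (by norm_num)
  -- threshold
  have hlim : ∀ᶠ L : ℝ in Filter.atTop, 2 * (Real.log 8 + C * Real.log L) / Real.log 2 ≤ δ / 4 * L ∧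
      1 ≤ L ∧ (12 / δ) ^ 2 < L := by
    have h1 : Filter.Tendsto (fun L : ℝ => 2 * (Real.log 8 + C * Real.log L) / Real.log 2 / L)
        Filter.atTop (nhds 0) := by
      have h2 : Filter.Tendsto (fun L : ℝ => 2 * Real.log 8 / Real.log 2 / L +
          2 * C / Real.log 2 * (Real.log L / L)) Filter.atTop (nhds (0 + 2 * C / Real.log 2 * 0)) := by
        apply Filter.Tendsto.add
        · exact Filter.Tendsto.div_atTop tendsto_const_nhds Filter.tendsto_id
        · apply Filter.Tendsto.const_mul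
          exact Real.isLittleO_log_id_atTop.tendsto_div_nhds_zero
      rw [mul_zero, add_zero] at h2
      refine h2.congr ?_
      intro L
      ring
    have h3 : ∀ᶠ L : ℝ in Filter.atTop,
        2 * (Real.log 8 + C * Real.log L) / Real.log 2 / L < δ / 4 :=
      h1.eventually (gt_mem_nhds (by positivity))
    filter_upwards [h3, Filter.eventually_ge_atTop 1, Filter.eventually_gt_atTop ((12 / δ) ^ 2)]
      with L h4 h5 h6
    refine ⟨?_, h5, h6⟩
    rw [div_lt_iff₀ (by linarith)] at h4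
    linarith
  obtain ⟨P, hP⟩ := Filter.eventually_atTop.1 hlim
  refine ⟨h, hh0, P, ?_⟩
  intro a b H x L hL hinj hlow n hn h2n W hW
  obtain ⟨hk1, hL1, hL2⟩ := hP L hL
  have hL0 : (0 : ℝ) < L := by linarith
  by_contra hcon
  push Not at hcon
  set X : ℝ := (L : ℝ) ^ C with hX
  have hX1 : 1 ≤ X := Real.one_le_rpow hL1 (by linarith)
  have hX0 : 0 < X := by linarith
  set m : ℕ := ⌊2 * X⌋₊ with hm
  set k : ℕ := Nat.log 2 m + 1 with hk
  have hm0 : m ≠ 0 := by
    have : 1 ≤ m := Nat.one_le_floor_iff _ |>.2 (by linarith)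
    omega
  have hkup : 2 * X < 2 ^ k := by
    have h1 := Nat.lt_pow_succ_log_self (b := 2) (by norm_num) m
    have h2 : m + 1 ≤ 2 ^ k := h1
    have h3 : 2 * X < m + 1 := Nat.lt_floor_add_one _
    have h4 : ((m + 1 : ℕ) : ℝ) ≤ ((2 ^ k : ℕ) : ℝ) := by exact_mod_cast h2
    push_cast at h4
    linarith
  have hklow : (2 : ℝ) ^ k ≤ 8 * X := by
    have h1 := Nat.pow_log_le_self 2 hm0
    have h3 : (m : ℝ) ≤ 2 * X := Nat.floor_le (by positivity)
    have h4 : ((2 ^ Nat.log 2 m : ℕ) : ℝ) ≤ (m : ℝ) := by exact_mod_cast h1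
    push_cast at h4
    rw [hk, pow_succ]
    nlinarith
  have hkr : 2 * (k : ℝ) ≤ δ / 4 * L := by
    refine le_trans ?_ hk1
    rw [le_div_iff₀ hl2]
    have h1 : (k : ℝ) * Real.log 2 ≤ Real.log (8 * X) := by
      rw [← Real.log_pow]
      exact Real.log_le_log (by positivity) hklow
    rw [Real.log_mul (by norm_num) hX0.ne', hX, Real.log_rpow hL0] at h1
    linarith
  have hnk : n ≤ k := by
    by_contra hcon
    push Not at hcon
    have h1 : (2 : ℝ) ^ k ≤ 2 ^ n := pow_le_pow_right₀ (by norm_num) hcon.le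
    linarith
  set K : ℕ := k / n + 1 with hK
  have hKn : k < K * n := by
    rw [hK]
    exact Nat.lt_mul_of_div_lt (Nat.lt_succ_self _) (by omega)
  have hKn2 : K * n ≤ 2 * k := by
    rw [hK, add_mul, one_mul]
    have := Nat.div_mul_le_self k n
    omega
  have hKpos : (0 : ℝ) < K := by
    have : 0 < K := Nat.succ_pos _
    exact_mod_cast this
  have hKnL : (K : ℝ) * n ≤ δ / 4 * L := by
    have : ((K * n : ℕ) : ℝ) ≤ ((2 * k : ℕ) : ℝ) := by exact_mod_cast hKn2
    push_cast at this
    linarith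
  have hδ1 : δ ≤ 1 := by
    have h1 : ((range L).filter fun i => |(((T a b)^[i] x : ℤ) : ℝ)| ≤ X).card ≤ L :=
      (card_filter_le _ _).trans (by simp)
    have h1' : (((range L).filter fun i => |(((T a b)^[i] x : ℤ) : ℝ)| ≤ X).card : ℝ) ≤ L := by
      exact_mod_cast h1
    nlinarith
  have hKL : K * n ≤ L := by
    have h1 : (K : ℝ) * n ≤ L := by nlinarith
    exact_mod_cast h1
  obtain ⟨M, hM⟩ : ∃ M, L = M + K * n := ⟨L - K * n, by omega⟩
  -- the bad indices
  set bad := (range L).filter fun i => wd (T a b) n ((T a b)^[i] x) ∉ W with hbad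
  have hsl := slide L M K n bad hM.ge (fun i hi => by
    rw [hbad, mem_filter, mem_range] at hi
    exact hi.1)
  set cnt : ℕ → ℕ := fun i => ((range K).filter fun j => i + j * n ∈ bad).card with hcnt
  set low := (range L).filter fun i => |(((T a b)^[i] x : ℤ) : ℝ)| ≤ X with hlowdef
  set Bd := (range M).filter fun i => ¬ ((cnt i : ℝ) ≤ θ * K) with hBd
  have h1 : (Bd.card : ℝ) * (θ * K) ≤ K * (h * L) := by
    calc (Bd.card : ℝ) * (θ * K) = ∑ i ∈ Bd, (θ * K) := by rw [sum_const, nsmul_eq_mul]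
      _ ≤ ∑ i ∈ Bd, (cnt i : ℝ) := by
          apply sum_le_sum
          intro i hi
          rw [hBd, mem_filter, not_le] at hi
          exact hi.2.le
      _ ≤ ∑ i ∈ range M, (cnt i : ℝ) :=
          sum_le_sum_of_subset_of_nonneg (filter_subset _ _) (fun _ _ _ => Nat.cast_nonneg _)
      _ ≤ K * bad.card := by exact_mod_cast hsl
      _ ≤ K * (h * L) := mul_le_mul_of_nonneg_left hcon.le hKpos.le
  have h3 : (Bd.card : ℝ) ≤ δ / 2 * L := by
    have h4 : (Bd.card : ℝ) * (θ * K) ≤ (δ / 2 * L) * (θ * K) := by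
      refine h1.trans ?_
      have h5 : h ≤ θ * δ / 2 := min_le_right _ _
      have h6 : h * L ≤ θ * δ / 2 * L := mul_le_mul_of_nonneg_right h5 hL0.le
      nlinarith
    exact le_of_mul_le_mul_right h4 (by positivity)
  -- the good indices
  set Yi := (range M).filter fun i => |(((T a b)^[i] x : ℤ) : ℝ)| ≤ X ∧ (cnt i : ℝ) ≤ θ * K with hYi
  have hYcard : δ / 4 * L ≤ Yi.card := by
    have h5 : low ⊆ Yi ∪ (Bd ∪ (range L).filter fun i => M ≤ i) := by
      intro i hi
      rw [hlowdef, mem_filter, mem_range] at hi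
      rw [mem_union, mem_union, hYi, hBd, mem_filter, mem_filter, mem_filter, mem_range, mem_range]
      by_cases hiM : i < M
      · by_cases hc : (cnt i : ℝ) ≤ θ * K
        · exact Or.inl ⟨hiM, hi.2, hc⟩
        · exact Or.inr (Or.inl ⟨hiM, hc⟩)
      · exact Or.inr (Or.inr ⟨hi.1, by omega⟩)
    have h6 : ((range L).filter fun i => M ≤ i).card ≤ K * n := by
      have e : ((range L).filter fun i => M ≤ i) ⊆ Finset.Ico M L := by
        intro i hi
        rw [mem_filter, mem_range] at hi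
        rw [mem_Ico]
        exact ⟨hi.2, hi.1⟩
      refine (card_le_card e).trans ?_
      rw [Nat.card_Ico]
      omega
    have h7 : low.card ≤ Yi.card + (Bd.card + K * n) :=
      (card_le_card h5).trans ((card_union_le _ _).trans
        (Nat.add_le_add_left ((card_union_le _ _).trans (Nat.add_le_add_left h6 _)) _))
    have h7' : (low.card : ℝ) ≤ Yi.card + (Bd.card + K * n) := by exact_mod_cast h7
    linarith
  set Y := Yi.image fun i => (T a b)^[i] x with hY
  have hYY : Y.card = Yi.card := by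
    rw [hY, card_image_of_injOn]
    intro i hi j hj hij
    have hi' := (mem_filter.1 hi).1
    have hj' := (mem_filter.1 hj).1
    rw [mem_range] at hi' hj'
    exact hinj (show i < L by omega) (show j < L by omega) hij
  have hcount := count_wd (T a b) (K := K) Y W (θ * K) s (2 ^ (h * n)) (by
    intro u hu v hv huv
    rw [hY, mem_image] at hu hv
    obtain ⟨i, hi, rfl⟩ := hu
    obtain ⟨j, hj, rfl⟩ := hv
    rw [hYi, mem_filter] at hi hj
    have hdvd := same_par H k _ _ (fun t ht => huv t (by omega))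
    have habs : |(T a b)^[i] x - (T a b)^[j] x| < 2 ^ k := by
      have h3 : |(((T a b)^[i] x - (T a b)^[j] x : ℤ) : ℝ)| < 2 ^ k := by
        push_cast
        refine lt_of_le_of_lt (abs_sub _ _) ?_
        linarith [hi.2.1, hj.2.1]
      exact_mod_cast h3
    have := Int.eq_zero_of_abs_lt_dvd hdvd habs
    omega) (by
    intro u hu
    rw [hY, mem_image] at hu
    obtain ⟨i, hi, rfl⟩ := hu
    rw [hYi, mem_filter, mem_range] at hi
    refine le_trans (le_of_eq ?_) hi.2.2
    rw [hcnt]
    norm_cast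
    congr 1
    apply filter_congr
    intro j hj
    rw [mem_range] at hj
    rw [← Function.iterate_add_apply, hbad, mem_filter, mem_range, add_comm (j * n) i]
    constructor
    · intro h7
      refine ⟨?_, h7⟩
      have : j * n ≤ K * n := Nat.mul_le_mul_right n hj.le
      omega
    · intro h7
      exact h7.2) hs0 hs1 hW (Real.one_le_rpow (by norm_num) (by positivity))
  rw [hYY] at hcount
  have h4 := hcount.trans (hexp n K h hn hh0.le (min_le_left _ _))
  have h5 : (2 : ℝ) ^ (κ * (K * n)) ≤ 3 * (L : ℝ) ^ (1 / 2 : ℝ) := by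
    have h6 : κ * ((K : ℝ) * n) ≤ (k : ℝ) * (2 * κ) := by
      have : (K : ℝ) * n ≤ 2 * k := by exact_mod_cast hKn2
      nlinarith
    have h8 : (8 : ℝ) ^ (2 * κ) ≤ 3 := by
      have h9 : 2 * κ ≤ 1 / 2 := by
        rw [hκdef]
        rw [mul_one_div, div_le_div_iff₀ (by positivity) (by norm_num)]
        linarith
      have h10 : (8 : ℝ) ^ (1 / 2 : ℝ) ≤ 3 := by
        rw [← Real.sqrt_eq_rpow]
        rw [Real.sqrt_le_left (by norm_num)]
        norm_num
      exact (Real.rpow_le_rpow_of_exponent_le (by norm_num) h9).trans h10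
    calc (2 : ℝ) ^ (κ * (K * n)) ≤ 2 ^ ((k : ℝ) * (2 * κ)) :=
          Real.rpow_le_rpow_of_exponent_le (by norm_num) h6
      _ = ((2 : ℝ) ^ k) ^ (2 * κ) := by rw [Real.rpow_mul (by norm_num), Real.rpow_natCast]
      _ ≤ (8 * X) ^ (2 * κ) := Real.rpow_le_rpow (by positivity) hklow (by positivity)
      _ = 8 ^ (2 * κ) * (L : ℝ) ^ (1 / 2 : ℝ) := by
          rw [Real.mul_rpow (by norm_num) hX0.le, hX, ← Real.rpow_mul hL0.le]
          congr 2
          rw [hκdef]
          field_simp
          norm_num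
      _ ≤ 3 * (L : ℝ) ^ (1 / 2 : ℝ) := mul_le_mul_of_nonneg_right h8 (by positivity)
  have h6 : δ / 4 * L ≤ 3 * (L : ℝ) ^ (1 / 2 : ℝ) := (hYcard.trans h4).trans h5
  set r : ℝ := (L : ℝ) ^ (1 / 2 : ℝ) with hr
  have hr0 : 0 < r := by positivity
  have hrr : (L : ℝ) = r ^ 2 := by
    rw [hr, ← Real.rpow_natCast, ← Real.rpow_mul hL0.le]; norm_num
  have h7 : r ≤ 12 / δ := by
    rw [le_div_iff₀ hδ]
    rw [hrr] at h6
    have h8 : r * (r * δ) ≤ r * 12 := by nlinarith
    exact le_of_mul_le_mul_left h8 hr0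
  have h8 : r ^ 2 ≤ (12 / δ) ^ 2 := pow_le_pow_left₀ hr0.le h7 2
  rw [hrr] at hL2
  linarith

end Pool.Agent.W5h23.G
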