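import Mathlib
import Pool.Agent.TH926.OSG.Cyc
import Pool.Agent.W5h23.G.Seg

set_option autoImplicit false

/-!
The parity words along the trajectories of the maps `T_{a,b}` cannot be compressed.
-/

namespace Pool.Agent.W5h23.G

open Finset Pool.Agent.TH926.OSG

/-- the words of length `n` with letters `0`, `1` -/
def bits (n : ℕ) : Finset (Fin n → ℤ) := Fintype.piFinset fun _ : Fin n => ({0, 1} : Finset ℤ)

theorem wd_mem (T : ℤ → ℤ) (n : ℕ) (x : ℤ) : wd T n x ∈ bits n := by
  rw [bits, Fintype.mem_piFinset]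
  intro j
  rw [mem_insert, mem_singleton]
  rcases Int.emod_two_eq_zero_or_one (T^[(j : ℕ)] x) with h | h
  · left; exact h
  · right; exact h

/-- a code has mean length at least the logarithm of the number of coded objects -/
theorem code_sum (T : ℤ → ℤ) {n J : ℕ} (Y : Finset ℤ) (g : (Fin n → ℤ) → ℝ)
    (hinj : ∀ x ∈ Y, ∀ y ∈ Y, (∀ t < J * n, T^[t] x % 2 = T^[t] y % 2) → x = y)
    (hK : ∑ w ∈ bits n, Real.exp (-g w) ≤ 1) :
    (Y.card : ℝ) * Real.log Y.card ≤ ∑ x ∈ Y, ∑ j ∈ range J, g (wd T n (T^[j * n] x)) := by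
  classical
  rcases Y.eq_empty_or_nonempty with rfl | hne
  · simp
  have hYpos : (0 : ℝ) < Y.card := by exact_mod_cast hne.card_pos
  set F : ℤ → Fin J → (Fin n → ℤ) := fun x j => wd T n (T^[(j : ℕ) * n] x) with hF
  have hFinj : Set.InjOn F Y := by
    intro x hx y hy hxy
    apply hinj x hx y hy
    intro t ht
    rcases Nat.eq_zero_or_pos n with h0 | hn
    · simp [h0] at ht
    have hj : t / n < J := by
      rw [Nat.div_lt_iff_lt_mul hn]
      exact ht
    have h1 : F x ⟨t / n, hj⟩ ⟨t % n, Nat.mod_lt _ hn⟩ = F y ⟨t / n, hj⟩ ⟨t % n, Nat.mod_lt _ hn⟩ := by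
      rw [hxy]
    simp only [hF, wd] at h1
    rw [← Function.iterate_add_apply, ← Function.iterate_add_apply] at h1
    have h2 : t % n + t / n * n = t := by
      rw [mul_comm]; exact Nat.mod_add_div t n
    rw [h2] at h1
    exact h1
  have hFmem : ∀ x, F x ∈ Fintype.piFinset (fun _ : Fin J => bits n) := by
    intro x
    rw [Fintype.mem_piFinset]
    intro j
    exact wd_mem _ _ _
  set G : ℤ → ℝ := fun x => ∑ j ∈ range J, g (wd T n (T^[j * n] x)) with hG
  have hGF : ∀ x, Real.exp (-G x) = ∏ j : Fin J, Real.exp (-g (F x j)) := by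
    intro x
    rw [← Real.exp_sum, Finset.sum_neg_distrib]
    congr 2
    rw [hG]
    exact (Fin.sum_univ_eq_sum_range (fun j => g (wd T n (T^[j * n] x))) J).symm
  have hsum : ∑ x ∈ Y, Real.exp (-G x) ≤ 1 := by
    calc ∑ x ∈ Y, Real.exp (-G x) = ∑ x ∈ Y, ∏ j : Fin J, Real.exp (-g (F x j)) :=
          sum_congr rfl fun x _ => hGF x
      _ = ∑ f ∈ Y.image F, ∏ j : Fin J, Real.exp (-g (f j)) := by
          rw [sum_image hFinj]
      _ ≤ ∑ f ∈ Fintype.piFinset (fun _ : Fin J => bits n), ∏ j : Fin J, Real.exp (-g (f j)) := by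
          apply sum_le_sum_of_subset_of_nonneg
          · intro f hf
            rw [mem_image] at hf
            obtain ⟨x, -, rfl⟩ := hf
            exact hFmem x
          · intro f _ _
            exact prod_nonneg fun j _ => (Real.exp_pos _).le
      _ = ∏ _j : Fin J, ∑ w ∈ bits n, Real.exp (-g w) :=
          (Finset.prod_univ_sum (fun _ : Fin J => bits n) (fun _ w => Real.exp (-g w))).symm
      _ ≤ 1 := by
          rw [prod_const]
          exact pow_le_one₀ (sum_nonneg fun w _ => (Real.exp_pos _).le) hK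
  have hpt : ∀ x ∈ Y, 1 + (-G x + Real.log Y.card) ≤ Y.card * Real.exp (-G x) := by
    intro x _
    have h1 := Real.add_one_le_exp (-G x + Real.log Y.card)
    rw [Real.exp_add, Real.exp_log hYpos] at h1
    linarith
  have h2 := sum_le_sum hpt
  rw [sum_add_distrib, sum_add_distrib, sum_neg_distrib, sum_const, sum_const, nsmul_eq_mul,
    nsmul_eq_mul, ← mul_sum, mul_one] at h2
  have h3 : (Y.card : ℝ) * ∑ x ∈ Y, Real.exp (-G x) ≤ Y.card * 1 :=
    mul_le_mul_of_nonneg_left hsum hYpos.le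
  linarith

/-- integers in `[-X, X]` with the same first parities -/
theorem eq_of_par {a b : ℤ} (H : Par a b) {X : ℝ} {k : ℕ} (hX : 2 * X < 2 ^ k) {x y : ℤ}
    (hx : |(x : ℝ)| ≤ X) (hy : |(y : ℝ)| ≤ X)
    (h : ∀ t < k, (T a b)^[t] x % 2 = (T a b)^[t] y % 2) : x = y := by
  have hdvd := same_par H k x y h
  have habs : |x - y| < 2 ^ k := by
    have h3 : |((x - y : ℤ) : ℝ)| < 2 ^ k := by
      push_cast
      refine lt_of_le_of_lt (abs_sub _ _) ?_
      linarith
    exact_mod_cast h3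
  have := Int.eq_zero_of_abs_lt_dvd hdvd habs
  omega

/-- sums over a cycle are invariant under the map -/
theorem cycle_sum {a b : ℤ} {Z : Finset ℤ} (hZ : IsCycle a b Z) (g : ℤ → ℝ) (j : ℕ) :
    ∑ x ∈ Z, g ((T a b)^[j] x) = ∑ x ∈ Z, g x := by
  classical
  have hinjT : Set.InjOn (T a b) Z := by
    obtain ⟨x0, hx0, hpos, hset, hcard, -, -⟩ := hZ.normal
    have hper : ∀ y ∈ Z, y ∈ Function.periodicPts (T a b) := by
      intro y hy
      refine ⟨Z.card, hZ.card_pos, ?_⟩
      exact hZ.per hy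
    intro x hx y hy hxy
    exact (Function.bijOn_periodicPts (T a b)).injOn (hper x hx) (hper y hy) hxy
  have himg : Z.image (T a b) = Z := by
    apply Finset.eq_of_subset_of_card_le
    · intro y hy
      rw [mem_image] at hy
      obtain ⟨x, hx, rfl⟩ := hy
      exact hZ.closed hx 1
    · rw [card_image_of_injOn hinjT]
  induction j with
  | zero => simp
  | succ j ih =>
    rw [← ih]
    conv_rhs => rw [← himg]
    rw [sum_image (fun x hx y hy h => hinjT hx hy h)]
    rfl

/-- **cycles**: the parity words cannot be compressed -/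
theorem code_cycle {a b : ℤ} (H : Par a b) {Z : Finset ℤ} (hZ : IsCycle a b Z) {X : ℝ} {n J : ℕ}
    (hX : 2 * X < 2 ^ (J * n)) (g : (Fin n → ℤ) → ℝ) (hg : ∀ w ∈ bits n, 0 ≤ g w)
    (hK : ∑ w ∈ bits n, Real.exp (-g w) ≤ 1) :
    ((Z.filter fun x : ℤ => |(x : ℝ)| ≤ X).card : ℝ) *
        Real.log (Z.filter fun x : ℤ => |(x : ℝ)| ≤ X).card ≤
      J * ∑ x ∈ Z, g (wd (T a b) n x) := by
  classical
  have h1 := code_sum (T a b) (J := J) (Z.filter fun x : ℤ => |(x : ℝ)| ≤ X) g
    (fun x hx y hy h => eq_of_par H hX (mem_filter.1 hx).2 (mem_filter.1 hy).2 h) hK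
  refine h1.trans ?_
  calc ∑ x ∈ Z.filter (fun x : ℤ => |(x : ℝ)| ≤ X), ∑ j ∈ range J, g (wd (T a b) n ((T a b)^[j * n] x))
      ≤ ∑ x ∈ Z, ∑ j ∈ range J, g (wd (T a b) n ((T a b)^[j * n] x)) := by
        apply sum_le_sum_of_subset_of_nonneg (filter_subset _ _)
        intro x _ _
        exact sum_nonneg fun j _ => hg _ (wd_mem _ _ _)
    _ = ∑ j ∈ range J, ∑ x ∈ Z, g (wd (T a b) n ((T a b)^[j * n] x)) := sum_comm
    _ = ∑ j ∈ range J, ∑ x ∈ Z, g (wd (T a b) n x) :=
        sum_congr rfl fun j _ => cycle_sum hZ (fun x => g (wd (T a b) n x)) (j * n)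
    _ = J * ∑ x ∈ Z, g (wd (T a b) n x) := by rw [sum_const, card_range, nsmul_eq_mul]

/-- **segments**: the parity words cannot be compressed -/
theorem code_seg {a b : ℤ} (H : Par a b) (x : ℤ) (L : ℕ)
    (hinj : Set.InjOn (fun i => (T a b)^[i] x) (Set.Iio L)) {X : ℝ} {n J : ℕ}
    (hX : 2 * X < 2 ^ (J * n)) (g : (Fin n → ℤ) → ℝ) (hg : ∀ w ∈ bits n, 0 ≤ g w)
    (hK : ∑ w ∈ bits n, Real.exp (-g w) ≤ 1) :
    (((range L).filter fun i => |(((T a b)^[i] x : ℤ) : ℝ)| ≤ X).card : ℝ) *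
        Real.log ((range L).filter fun i => |(((T a b)^[i] x : ℤ) : ℝ)| ≤ X).card ≤
      J * ∑ i ∈ range (L + J * n), g (wd (T a b) n ((T a b)^[i] x)) := by
  classical
  set I := (range L).filter fun i => |(((T a b)^[i] x : ℤ) : ℝ)| ≤ X with hI
  set Y := I.image fun i => (T a b)^[i] x with hY
  have hinjI : Set.InjOn (fun i => (T a b)^[i] x) I := by
    intro i hi j hj hij
    have hi' := (mem_filter.1 hi).1
    have hj' := (mem_filter.1 hj).1
    rw [mem_range] at hi' hj'
    exact hinj (show i < L by omega) (show j < L by omega) hij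
  have hYY : Y.card = I.card := by rw [hY, card_image_of_injOn hinjI]
  have h1 := code_sum (T a b) (J := J) Y g (by
    intro u hu v hv huv
    rw [hY, mem_image] at hu hv
    obtain ⟨i, hi, rfl⟩ := hu
    obtain ⟨j, hj, rfl⟩ := hv
    exact eq_of_par H hX (mem_filter.1 hi).2 (mem_filter.1 hj).2 huv) hK
  rw [hYY, hY, sum_image hinjI] at h1
  refine h1.trans ?_
  rw [sum_comm]
  have h2 : ∀ j ∈ range J, ∑ i ∈ I, g (wd (T a b) n ((T a b)^[j * n] ((T a b)^[i] x))) ≤
      ∑ i ∈ range (L + J * n), g (wd (T a b) n ((T a b)^[i] x)) := by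
    intro j hj
    have e1 : ∑ i ∈ I, g (wd (T a b) n ((T a b)^[j * n] ((T a b)^[i] x))) =
        ∑ i ∈ I.image (fun i => j * n + i), g (wd (T a b) n ((T a b)^[i] x)) := by
      rw [sum_image (fun i _ i' _ h => Nat.add_left_cancel h)]
      apply sum_congr rfl
      intro i _
      rw [← Function.iterate_add_apply]
    rw [e1]
    apply sum_le_sum_of_subset_of_nonneg
    · intro i hi
      rw [mem_image] at hi
      obtain ⟨i', hi', rfl⟩ := hi
      have hi'' := (mem_filter.1 hi').1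
      rw [mem_range] at hi'' hj ⊢
      have : j * n ≤ J * n := Nat.mul_le_mul_right n hj.le
      omega
    · intro i _ _
      exact hg _ (wd_mem _ _ _)
  calc ∑ j ∈ range J, ∑ i ∈ I, g (wd (T a b) n ((T a b)^[j * n] ((T a b)^[i] x)))
      ≤ ∑ j ∈ range J, ∑ i ∈ range (L + J * n), g (wd (T a b) n ((T a b)^[i] x)) := sum_le_sum h2
    _ = _ := by rw [sum_const, card_range, nsmul_eq_mul]

end Pool.Agent.W5h23.G
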