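import Mathlib
import Pool.Agent.W5h23.RatRot
import Pool.Agent.W5h23.G.Approx

set_option autoImplicit false

/-!
Sliding windows: sequences which are almost orbits of a rotation most of the time.
-/

namespace Pool.Agent.W5h23.G

open Finset

/-- the position after `t` steps -/
theorem pos_iter (s : ℕ → ℝ) (α ε : ℝ) (i q : ℕ)
    (hstep : ∀ t, t + 1 < q → ∃ n : ℤ, |s (i + t + 1) - s (i + t) - α - n| ≤ ε) :
    ∀ t, t < q → ∃ n : ℤ, |s (i + t) - s i - t * α - n| ≤ t * ε := by
  intro t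
  induction t with
  | zero => intro _; exact ⟨0, by simp⟩
  | succ t ih =>
    intro ht
    obtain ⟨n, hn⟩ := ih (by omega)
    obtain ⟨m, hm⟩ := hstep t ht
    refine ⟨n + m, ?_⟩
    have e : s (i + (t + 1)) - s i - ((t + 1 : ℕ) : ℝ) * α - ((n + m : ℤ) : ℝ) =
        (s (i + t) - s i - t * α - n) + (s (i + t + 1) - s (i + t) - α - m) := by
      push_cast
      rw [← add_assoc]
      ring
    rw [e]
    refine (abs_add_le _ _).trans ?_
    push_cast
    linarith

/-- one window -/
theorem window_disc (s : ℕ → ℝ) (α ε : ℝ) (hε : 0 ≤ ε) (i : ℕ) {q : ℕ} {h : ℤ} (hq : 0 < q)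
    (hstep : ∀ t, t + 1 < q → ∃ n : ℤ, |s (i + t + 1) - s (i + t) - α - n| ≤ ε)
    (hcop : IsCoprime h (q : ℤ)) (hα : |(q : ℝ) * α - h| ≤ 1 / q)
    {A B : ℝ} (hA : 0 ≤ A) (hAB : A ≤ B) (hB : B ≤ 1) :
    |(((range q).filter fun t => A ≤ Int.fract (s (i + t)) ∧ Int.fract (s (i + t)) < B).card : ℝ) -
      (B - A) * q| ≤ 3 + 2 * (q : ℝ) ^ 2 * ε := by
  have hqr : (0 : ℝ) < q := by exact_mod_cast hq
  have h1 := count_disc (range q) (fun t => t) (fun _ _ _ _ h => h) q hq
    (fun t ht => mem_range.1 ht) (card_range q) h (s i) (q * ε + 1 / q) (by positivity)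
    (fun t => s (i + t)) (by
      intro t ht
      rw [mem_range] at ht
      obtain ⟨n, hn⟩ := pos_iter s α ε i q hstep t ht
      refine ⟨n, ?_⟩
      have e : s (i + t) - s i - (t : ℝ) * ((h : ℝ) / q) - n =
          (s (i + t) - s i - t * α - n) + (t / q) * ((q : ℝ) * α - h) := by
        field_simp
        ring
      rw [e]
      refine (abs_add_le _ _).trans ?_
      have htq : (t : ℝ) / q ≤ 1 := by
        rw [div_le_one hqr]; exact_mod_cast ht.le
      have ht0 : 0 ≤ (t : ℝ) / q := by positivity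
      have h3 : |(t : ℝ) / q * ((q : ℝ) * α - h)| ≤ 1 / q := by
        rw [abs_mul, abs_of_nonneg ht0]
        calc (t : ℝ) / q * |(q : ℝ) * α - h| ≤ 1 * (1 / q) :=
              mul_le_mul htq hα (abs_nonneg _) (by norm_num)
          _ = 1 / q := one_mul _
      have h4 : (t : ℝ) * ε ≤ q * ε := by
        apply mul_le_mul_of_nonneg_right _ hε
        exact_mod_cast ht.le
      linarith) A B hA hAB hB
  have h2 : Int.gcd h q = 1 := Int.isCoprime_iff_gcd_eq_one.1 hcop
  rw [h2] at h1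
  refine h1.trans (le_of_eq ?_)
  push_cast
  field_simp
  ring

/-- **sliding windows** -/
theorem slide_disc (s : ℕ → ℝ) (α ε : ℝ) (hε : 0 ≤ ε) (K : ℕ) (Bad : Finset ℕ)
    (hstep : ∀ i, i + 1 < K → i ∉ Bad → ∃ n : ℤ, |s (i + 1) - s i - α - n| ≤ ε)
    {q : ℕ} {h : ℤ} (hq : 0 < q) (hcop : IsCoprime h (q : ℤ)) (hα : |(q : ℝ) * α - h| ≤ 1 / q)
    {A B : ℝ} (hA : 0 ≤ A) (hAB : A ≤ B) (hB : B ≤ 1) :
    |(((range K).filter fun i => A ≤ Int.fract (s i) ∧ Int.fract (s i) < B).card : ℝ) -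
      (B - A) * K| ≤ (Bad.card + 2) * q + (3 / q + 2 * q * ε) * K := by
  classical
  have hqr : (0 : ℝ) < q := by exact_mod_cast hq
  set p : ℕ → Prop := fun i => A ≤ Int.fract (s i) ∧ Int.fract (s i) < B with hp
  set tot := (range K).filter p with htot
  have htotK : (tot.card : ℝ) ≤ K := by
    have := card_filter_le (range K) p
    rw [card_range] at this
    exact_mod_cast this
  have hBA0 : 0 ≤ B - A := by linarith
  have hBA1 : B - A ≤ 1 := by linarith
  have hK0 : (0 : ℝ) ≤ K := Nat.cast_nonneg _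
  have hR0 : (0 : ℝ) ≤ Bad.card := Nat.cast_nonneg _
  rcases lt_or_ge K q with hKq | hKq
  · have h1 : |(tot.card : ℝ) - (B - A) * K| ≤ K := by
      rw [abs_le]
      constructor
      · have : (B - A) * K ≤ 1 * K := mul_le_mul_of_nonneg_right hBA1 hK0
        have h2 : (0 : ℝ) ≤ tot.card := Nat.cast_nonneg _
        linarith
      · have : 0 ≤ (B - A) * K := mul_nonneg hBA0 hK0
        linarith
    have h2 : (K : ℝ) ≤ q := by exact_mod_cast hKq.le
    have h3 : (0 : ℝ) ≤ (3 / q + 2 * q * ε) * K := by positivity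
    have h4 : (1 : ℝ) * q ≤ (Bad.card + 2) * q := mul_le_mul_of_nonneg_right (by linarith) hqr.le
    linarith
  -- windows
  set W := K + 1 - q with hW
  have hWK : W + q = K + 1 := by omega
  set c : ℕ → ℕ := fun i => ((range q).filter fun t => p (i + t)).card with hc
  have hcq : ∀ i, (c i : ℝ) ≤ q := by
    intro i
    have := card_filter_le (range q) (fun t => p (i + t))
    rw [card_range] at this
    exact_mod_cast this
  -- sum over the windows
  have hsum : (∑ i ∈ range W, (c i : ℝ)) =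
      ∑ t ∈ range q, (((range W).filter fun i => p (i + t)).card : ℝ) := by
    have e1 : ∀ i, (c i : ℝ) = ∑ t ∈ range q, if p (i + t) then (1 : ℝ) else 0 := by
      intro i
      change (((range q).filter fun t => p (i + t)).card : ℝ) = _
      rw [card_filter]; push_cast; rfl
    have e2 : ∀ t, (((range W).filter fun i => p (i + t)).card : ℝ) =
        ∑ i ∈ range W, if p (i + t) then (1 : ℝ) else 0 := by
      intro t
      rw [card_filter]; push_cast; rfl
    simp_rw [e1, e2]
    rw [sum_comm]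
  have hshift : ∀ t ∈ range q, (((range W).filter fun i => p (i + t)).card : ℝ) ≤ tot.card ∧
      (tot.card : ℝ) ≤ ((range W).filter fun i => p (i + t)).card + q := by
    intro t ht
    rw [mem_range] at ht
    have hinj : Set.InjOn (fun i : ℕ => i + t) ((range W).filter fun i => p (i + t)) :=
      fun i _ j _ h => Nat.add_right_cancel h
    constructor
    · have h1 : ((range W).filter fun i => p (i + t)).card ≤ tot.card := by
        apply card_le_card_of_injOn (fun i => i + t)
        · intro i hi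
          have hi' := mem_filter.1 hi
          rw [mem_range] at hi'
          have h2 : i + t < K := by omega
          exact mem_filter.2 ⟨mem_range.2 h2, hi'.2⟩
        · exact hinj
      exact_mod_cast h1
    · have h1 : tot ⊆ (((range W).filter fun i => p (i + t)).image fun i => i + t) ∪
          (range t ∪ Finset.Ico (W + t) K) := by
        intro j hj
        rw [htot, mem_filter, mem_range] at hj
        rw [mem_union, mem_union, mem_image, mem_range, mem_Ico]
        by_cases hjt : j < t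
        · exact Or.inr (Or.inl hjt)
        · by_cases hjW : j < W + t
          · left
            refine ⟨j - t, ?_, by omega⟩
            rw [mem_filter, mem_range]
            refine ⟨by omega, ?_⟩
            rw [show j - t + t = j by omega]
            exact hj.2
          · exact Or.inr (Or.inr ⟨by omega, hj.1⟩)
      have h2 := (card_le_card h1).trans ((card_union_le _ _).trans
        (Nat.add_le_add card_image_le (card_union_le _ _)))
      rw [card_range, Nat.card_Ico] at h2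
      have h3 : t + (K - (W + t)) ≤ q := by omega
      have h4 : tot.card ≤ ((range W).filter fun i => p (i + t)).card + q := by omega
      exact_mod_cast h4
  have hup : ∑ i ∈ range W, (c i : ℝ) ≤ q * tot.card := by
    rw [hsum]
    calc _ ≤ ∑ t ∈ range q, (tot.card : ℝ) := sum_le_sum fun t ht => (hshift t ht).1
      _ = q * tot.card := by rw [sum_const, card_range, nsmul_eq_mul]
  have hlo : (q : ℝ) * tot.card ≤ ∑ i ∈ range W, (c i : ℝ) + q * q := by
    rw [hsum]
    calc (q : ℝ) * tot.card = ∑ t ∈ range q, (tot.card : ℝ) := by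
          rw [sum_const, card_range, nsmul_eq_mul]
      _ ≤ ∑ t ∈ range q, ((((range W).filter fun i => p (i + t)).card : ℝ) + q) :=
          sum_le_sum fun t ht => (hshift t ht).2
      _ = _ := by rw [sum_add_distrib, sum_const, card_range, nsmul_eq_mul]
  -- bad windows
  set bw := (range W).filter fun i => ∃ t < q, i + t ∈ Bad with hbw
  have hbwc : (bw.card : ℝ) ≤ q * Bad.card := by
    have h1 : bw ⊆ (range q ×ˢ Bad).image fun z => z.2 - z.1 := by
      intro i hi
      obtain ⟨-, t, ht, hb⟩ := mem_filter.1 hi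
      rw [mem_image]
      exact ⟨(t, i + t), mem_product.2 ⟨mem_range.2 ht, hb⟩, by simp⟩
    have h2 := (card_le_card h1).trans card_image_le
    rw [card_product, card_range] at h2
    exact_mod_cast h2
  have hD : ∀ i ∈ range W, |(c i : ℝ) - (B - A) * q| ≤
      (3 + 2 * (q : ℝ) ^ 2 * ε) + if i ∈ bw then (q : ℝ) else 0 := by
    intro i hi
    have hDpos : 0 ≤ 3 + 2 * (q : ℝ) ^ 2 * ε := by positivity
    by_cases hib : i ∈ bw
    · rw [if_pos hib]
      have h1 : |(c i : ℝ) - (B - A) * q| ≤ q := by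
        rw [abs_le]
        have h0 : (0 : ℝ) ≤ c i := Nat.cast_nonneg _
        constructor
        · have : (B - A) * q ≤ 1 * q := mul_le_mul_of_nonneg_right hBA1 hqr.le
          linarith
        · have : 0 ≤ (B - A) * q := mul_nonneg hBA0 hqr.le
          have := hcq i
          linarith
      linarith
    · rw [if_neg hib, add_zero]
      have hno : ∀ t < q, i + t ∉ Bad := by
        intro t ht hb
        exact hib (mem_filter.2 ⟨hi, t, ht, hb⟩)
      rw [mem_range] at hi
      exact window_disc s α ε hε i hq (fun t ht => by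
        have := hstep (i + t) (by omega) (hno t (by omega))
        exact this) hcop hα hA hAB hB
  have htotal : |∑ i ∈ range W, ((c i : ℝ) - (B - A) * q)| ≤
      W * (3 + 2 * (q : ℝ) ^ 2 * ε) + q * bw.card := by
    refine (abs_sum_le_sum_abs _ _).trans ((sum_le_sum hD).trans ?_)
    rw [sum_add_distrib, sum_const, card_range, nsmul_eq_mul, ← sum_filter, sum_const, nsmul_eq_mul]
    have h1 : (((range W).filter fun i => i ∈ bw).card : ℝ) ≤ bw.card := by
      have : ((range W).filter fun i => i ∈ bw) ⊆ bw := fun i hi => (mem_filter.1 hi).2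
      exact_mod_cast card_le_card this
    have h2 := mul_le_mul_of_nonneg_right h1 hqr.le
    linarith
  rw [sum_sub_distrib, sum_const, card_range, nsmul_eq_mul] at htotal
  have hWr : (W : ℝ) + q = K + 1 := by exact_mod_cast hWK
  have hWK' : (W : ℝ) ≤ K := by
    have : W ≤ K := by omega
    exact_mod_cast this
  have hq1 : (1 : ℝ) ≤ q := by exact_mod_cast hq
  have hDpos : 0 ≤ 3 + 2 * (q : ℝ) ^ 2 * ε := by positivity
  have h5 : (W : ℝ) * (3 + 2 * (q : ℝ) ^ 2 * ε) ≤ K * (3 + 2 * (q : ℝ) ^ 2 * ε) :=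
    mul_le_mul_of_nonneg_right hWK' hDpos
  have h6 : (q : ℝ) * bw.card ≤ q * (q * Bad.card) := mul_le_mul_of_nonneg_left hbwc hqr.le
  have h7 := abs_le.1 htotal
  have h8 : (W : ℝ) * ((B - A) * q) = (B - A) * q * K - (B - A) * q * (q - 1) := by
    have : (W : ℝ) = K + 1 - q := by linarith
    rw [this]; ring
  have h9 : 0 ≤ (B - A) * q * (q - 1) := by
    apply mul_nonneg (mul_nonneg hBA0 hqr.le) (by linarith)
  have h10 : (B - A) * q * (q - 1) ≤ q * q := by
    calc (B - A) * q * (q - 1) ≤ 1 * q * q := by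
          apply mul_le_mul _ (by linarith) (by linarith) (by positivity)
          exact mul_le_mul_of_nonneg_right hBA1 hqr.le
      _ = q * q := by ring
  have hfin : (q : ℝ) * |(tot.card : ℝ) - (B - A) * K| ≤
      q * ((Bad.card + 2) * q + (3 / q + 2 * q * ε) * K) := by
    have e1 : (q : ℝ) * |(tot.card : ℝ) - (B - A) * K| = |q * tot.card - (B - A) * q * K| := by
      rw [← abs_of_pos hqr, ← abs_mul, abs_of_pos hqr]
      congr 1
      ring_nf
    have e2 : (q : ℝ) * ((Bad.card + 2) * q + (3 / q + 2 * q * ε) * K) =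
        q * (q * Bad.card) + 2 * (q * q) + K * (3 + 2 * (q : ℝ) ^ 2 * ε) := by
      field_simp
    rw [e1, e2, abs_le]
    constructor <;> linarith
  exact le_of_mul_le_mul_left hfin hqr

/-- `α` has good approximations with denominators in all power ranges -/
def Appr (α : ℝ) : Prop := ∃ c : ℝ, 0 < c ∧ ∀ Q : ℝ, 1 ≤ Q → ∃ (q : ℕ) (h : ℤ), 0 < q ∧
    c * Q ^ (1 / 13 : ℝ) ≤ q ∧ (q : ℝ) ≤ 2 * Q ∧ IsCoprime h (q : ℤ) ∧ |(q : ℝ) * α - h| ≤ 1 / q

/-- integers of absolute value less than `N` in a sequence with different terms -/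
theorem small_terms (x : ℕ → ℤ) (K : ℕ) (hinj : Set.InjOn x (Set.Iio K)) {N : ℝ} (hN : 0 ≤ N) :
    (((range K).filter fun i => |(x i : ℝ)| < N).card : ℝ) ≤ 2 * N + 1 := by
  classical
  have h1 : ((range K).filter fun i => |(x i : ℝ)| < N).card ≤
      (Finset.Icc (-⌊N⌋) ⌊N⌋).card := by
    apply card_le_card_of_injOn x
    · intro i hi
      have hi' := (mem_filter.1 hi).2
      rw [abs_lt] at hi'
      apply Finset.mem_coe.2
      rw [mem_Icc]
      constructor
      · rw [neg_le]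
        exact Int.le_floor.2 (by push_cast; linarith [hi'.1])
      · exact Int.le_floor.2 hi'.2.le
    · intro i hi j hj hij
      have hi' := mem_range.1 (mem_filter.1 hi).1
      have hj' := mem_range.1 (mem_filter.1 hj).1
      exact hinj hi' hj' hij
  rw [Int.card_Icc] at h1
  have h2 : ((⌊N⌋ + 1 - -⌊N⌋).toNat : ℝ) = 2 * (⌊N⌋ : ℝ) + 1 := by
    have h3 : (0 : ℤ) ≤ ⌊N⌋ := Int.floor_nonneg.2 hN
    have h4 : ((⌊N⌋ + 1 - -⌊N⌋).toNat : ℤ) = 2 * ⌊N⌋ + 1 := by
      rw [Int.toNat_of_nonneg (by omega)]; ring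
    exact_mod_cast h4
  have h5 : (((range K).filter fun i => |(x i : ℝ)| < N).card : ℝ) ≤
      ((⌊N⌋ + 1 - -⌊N⌋).toNat : ℝ) := by exact_mod_cast h1
  have h6 := Int.floor_le N
  linarith

/-- **Benford's law for sequences with different terms** -/
theorem benford_distinct {α : ℝ} (hα : Appr α) (g : ℝ) : ∃ C : ℝ, ∀ D : ℝ, 1 ≤ D →
    ∀ (x : ℕ → ℤ) (K : ℕ), Set.InjOn x (Set.Iio K) →
    (∀ i, i + 1 < K → ∀ N : ℝ, D ≤ N → N ≤ |(x i : ℝ)| →
      ∃ n : ℤ, |Real.logb g |(x (i + 1) : ℝ)| - Real.logb g |(x i : ℝ)| - α - n| ≤ D / N) →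
    ∀ A B : ℝ, 0 ≤ A → A ≤ B → B ≤ 1 →
    |(((range K).filter fun i => A ≤ Int.fract (Real.logb g |(x i : ℝ)|) ∧
      Int.fract (Real.logb g |(x i : ℝ)|) < B).card : ℝ) - (B - A) * K| ≤
      C * (K : ℝ) ^ (27 / 28 : ℝ) * D ^ (1 / 28 : ℝ) := by
  classical
  obtain ⟨c, hc, happ⟩ := hα
  refine ⟨3 / c + 20, ?_⟩
  intro D hD x K hinj hstep A B hA hAB hB
  have hD0 : 0 < D := by linarith
  have hK0 : (0 : ℝ) ≤ K := Nat.cast_nonneg _
  set cnt := ((range K).filter fun i => A ≤ Int.fract (Real.logb g |(x i : ℝ)|) ∧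
      Int.fract (Real.logb g |(x i : ℝ)|) < B).card with hcnt
  have hcntK' : cnt ≤ K := (card_filter_le _ _).trans (by rw [card_range])
  have hcntK : (cnt : ℝ) ≤ K := by exact_mod_cast hcntK'
  rcases lt_or_ge (K : ℝ) D with hKD | hKD
  · -- trivial bound
    have h1 : |(cnt : ℝ) - (B - A) * K| ≤ K := by
      rw [abs_le]
      constructor
      · have : (B - A) * K ≤ 1 * K := mul_le_mul_of_nonneg_right (by linarith) hK0
        have h2 : (0 : ℝ) ≤ cnt := Nat.cast_nonneg _
        linarith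
      · have : 0 ≤ (B - A) * K := mul_nonneg (by linarith) hK0
        linarith
    have h2 : (K : ℝ) ≤ (K : ℝ) ^ (27 / 28 : ℝ) * D ^ (1 / 28 : ℝ) := by
      rcases hK0.eq_or_lt with h0 | h0
      · rw [← h0]; positivity
      calc (K : ℝ) = (K : ℝ) ^ (27 / 28 : ℝ) * (K : ℝ) ^ (1 / 28 : ℝ) := by
            rw [← Real.rpow_add h0]; norm_num
        _ ≤ _ := mul_le_mul_of_nonneg_left
            (Real.rpow_le_rpow hK0 hKD.le (by norm_num)) (by positivity)
    have h3 : (0 : ℝ) ≤ (K : ℝ) ^ (27 / 28 : ℝ) * D ^ (1 / 28 : ℝ) := by positivity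
    have h4 : (0 : ℝ) ≤ 3 / c := by positivity
    calc |(cnt : ℝ) - (B - A) * K| ≤ K := h1
      _ ≤ (K : ℝ) ^ (27 / 28 : ℝ) * D ^ (1 / 28 : ℝ) := h2
      _ ≤ (3 / c + 20) * ((K : ℝ) ^ (27 / 28 : ℝ) * D ^ (1 / 28 : ℝ)) := by nlinarith
      _ = _ := by ring
  have hKpos : (0 : ℝ) < K := by linarith
  set r : ℝ := (K : ℝ) / D with hr
  have hr1 : 1 ≤ r := by rw [hr, le_div_iff₀ hD0]; linarith
  have hr0 : 0 < r := by linarith
  have hKr : (K : ℝ) = r * D := by rw [hr]; field_simp
  set Q : ℝ := r ^ (13 / 28 : ℝ) with hQ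
  have hQ1 : 1 ≤ Q := Real.one_le_rpow hr1 (by norm_num)
  obtain ⟨q, h, hq0, hqlow, hqup, hcop, hqa⟩ := happ Q hQ1
  have hqr : (0 : ℝ) < q := by exact_mod_cast hq0
  set N : ℝ := D * r ^ (1 / 2 : ℝ) with hN
  have hrh : 1 ≤ r ^ (1 / 2 : ℝ) := Real.one_le_rpow hr1 (by norm_num)
  have hND : D ≤ N := by rw [hN]; nlinarith
  have hN0 : 0 < N := by linarith
  set Bad := (range K).filter fun i => |(x i : ℝ)| < N with hBad
  have hBadc : (Bad.card : ℝ) ≤ 2 * N + 1 := small_terms x K hinj hN0.le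
  have hslide := slide_disc (fun i => Real.logb g |(x i : ℝ)|) α (D / N) (by positivity) K Bad
    (by
      intro i hi hb
      apply hstep i hi N hND
      by_contra hcon
      push Not at hcon
      exact hb (mem_filter.2 ⟨mem_range.2 (by omega), hcon⟩)) hq0 hcop hqa hA hAB hB
  refine hslide.trans ?_
  -- the three terms
  have hM : (K : ℝ) ^ (27 / 28 : ℝ) * D ^ (1 / 28 : ℝ) = r ^ (27 / 28 : ℝ) * D := by
    rw [hKr, Real.mul_rpow hr0.le hD0.le, mul_assoc, ← Real.rpow_add hD0]
    norm_num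
  have e1 : r ^ (1 / 2 : ℝ) * Q = r ^ (27 / 28 : ℝ) := by
    rw [hQ, ← Real.rpow_add hr0]; norm_num
  have e2 : r ^ (1 / 28 : ℝ) * r ^ (27 / 28 : ℝ) = r := by
    rw [← Real.rpow_add hr0]; norm_num
  have e3 : Q ^ (1 / 13 : ℝ) = r ^ (1 / 28 : ℝ) := by
    rw [hQ, ← Real.rpow_mul hr0.le]; norm_num
  have e4 : r ^ (1 / 2 : ℝ) * r ^ (1 / 2 : ℝ) = r := by
    rw [← Real.rpow_add hr0]; norm_num
  have hQ0 : 0 < Q := by linarith
  have hr28 : 0 < r ^ (1 / 28 : ℝ) := by positivity
  have t1 : ((Bad.card : ℝ) + 2) * q ≤ 10 * (r ^ (27 / 28 : ℝ) * D) := by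
    calc ((Bad.card : ℝ) + 2) * q ≤ (5 * N) * (2 * Q) := by
          apply mul_le_mul _ hqup hqr.le (by positivity)
          linarith
      _ = 10 * ((r ^ (1 / 2 : ℝ) * Q) * D) := by rw [hN]; ring
      _ = _ := by rw [e1]
  have t2 : 3 / (q : ℝ) * K ≤ 3 / c * (r ^ (27 / 28 : ℝ) * D) := by
    rw [e3] at hqlow
    calc 3 / (q : ℝ) * K ≤ 3 / (c * r ^ (1 / 28 : ℝ)) * K := by
          apply mul_le_mul_of_nonneg_right _ hK0
          exact div_le_div_of_nonneg_left (by norm_num) (by positivity) hqlow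
      _ = 3 / (c * r ^ (1 / 28 : ℝ)) * ((r ^ (1 / 28 : ℝ) * r ^ (27 / 28 : ℝ)) * D) := by
          rw [e2, ← hKr]
      _ = _ := by field_simp
  have t3 : 2 * (q : ℝ) * (D / N) * K ≤ 4 * (r ^ (27 / 28 : ℝ) * D) := by
    calc 2 * (q : ℝ) * (D / N) * K ≤ 2 * (2 * Q) * (D / N) * K := by
          apply mul_le_mul_of_nonneg_right _ hK0
          apply mul_le_mul_of_nonneg_right _ (by positivity)
          linarith
      _ = 4 * (Q * (r ^ (1 / 2 : ℝ))⁻¹ * ((r ^ (1 / 2 : ℝ) * r ^ (1 / 2 : ℝ)) * D)) := by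
          rw [e4, ← hKr, hN]
          field_simp
          norm_num
      _ = 4 * ((r ^ (1 / 2 : ℝ) * Q) * D) := by field_simp
      _ = _ := by rw [e1]
  have hM0 : 0 ≤ r ^ (27 / 28 : ℝ) * D := by positivity
  have hfin : ((Bad.card : ℝ) + 2) * q + (3 / q + 2 * q * (D / N)) * K ≤
      (3 / c + 20) * (r ^ (27 / 28 : ℝ) * D) := by
    have : (3 / (q : ℝ) + 2 * q * (D / N)) * K = 3 / (q : ℝ) * K + 2 * (q : ℝ) * (D / N) * K := by ring
    rw [this]
    linarith
  rw [mul_assoc (3 / c + 20), hM]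
  exact hfin

end Pool.Agent.W5h23.G
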