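import Mathlib
import Pool.Agent.W5h23.G.Slide
import Pool.Agent.W5h23.G.Block

set_option autoImplicit false

/-!
Benford's law for trajectories with different terms: the maps `T_d`, the Collatz map, the Syracuse maps.
-/

namespace Pool.Agent.W5h23.G

open Finset Pool.Agent.TH926.OSG

/-- approximations from a lower bound for linear forms -/
theorem appr_lin (α l : ℝ) (hl : 0 < l) (u v : ℕ → ℤ → ℤ) (M : ℝ) (hM : 0 < M)
    (h1 : ∀ (q : ℕ) (h : ℤ), 0 < q → (u q h ≠ 0 ∨ v q h ≠ 0))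
    (h2 : ∀ (q : ℕ) (h : ℤ), ((|u q h| + |v q h| : ℤ) : ℝ) ≤ M * (q + |(h : ℝ)|))
    (h3 : ∀ (q : ℕ) (h : ℤ), l * ((q : ℝ) * α - h) = u q h * Real.log 2 + v q h * Real.log 3) :
    Appr α := by
  obtain ⟨c, hc, hm⟩ := Pool.Agent.H319R2.measure
  set c1 : ℝ := c / ((M * (|α| + 2)) ^ 13 * l) with hc1
  have hα2 : 0 < |α| + 2 := by positivity
  have hc10 : 0 < c1 := by positivity
  refine ⟨c1 ^ (1 / 13 : ℝ), by positivity, ?_⟩
  intro Q hQ
  obtain ⟨q, h, hq0, hqQ, hcop, h1q, happ⟩ := dirichlet α Q hQ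
  have hQ0 : 0 < Q := by linarith
  have hqr : (0 : ℝ) < q := by exact_mod_cast hq0
  have hq1 : (1 : ℝ) ≤ q := by exact_mod_cast hq0
  refine ⟨q, h, hq0, ?_, hqQ, hcop, h1q⟩
  have hmq := hm (u q h) (v q h) (h1 q h hq0)
  rw [← h3, abs_mul, abs_of_pos hl] at hmq
  have hh5 : |(h : ℝ)| ≤ (|α| + 1) * q := by
    have h6 : |(h : ℝ)| ≤ |(q : ℝ) * α| + |(q : ℝ) * α - h| := by
      have e7 : (h : ℝ) = (q : ℝ) * α - ((q : ℝ) * α - h) := by ring
      calc |(h : ℝ)| = |(q : ℝ) * α - ((q : ℝ) * α - h)| := by rw [← e7]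
        _ ≤ _ := abs_sub _ _
    rw [abs_mul, abs_of_pos hqr] at h6
    have h8 : 1 / (q : ℝ) ≤ 1 := by rw [div_le_one hqr]; linarith
    linarith
  have hh4 : ((|u q h| + |v q h| : ℤ) : ℝ) ≤ M * (|α| + 2) * q := by
    refine (h2 q h).trans ?_
    have : M * ((q : ℝ) + |(h : ℝ)|) ≤ M * ((|α| + 2) * q) :=
      mul_le_mul_of_nonneg_left (by linarith) hM.le
    linarith
  have hh0 : (0 : ℝ) ≤ ((|u q h| + |v q h| : ℤ) : ℝ) := by
    have : (0 : ℤ) ≤ |u q h| + |v q h| := by positivity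
    exact_mod_cast this
  have h9 : c ≤ (M * (|α| + 2) * q) ^ 13 * (l * (1 / Q)) := by
    refine hmq.trans ?_
    apply mul_le_mul (pow_le_pow_left₀ hh0 hh4 13) _ (by positivity) (by positivity)
    exact mul_le_mul_of_nonneg_left happ hl.le
  have h10 : c1 * Q ≤ (q : ℝ) ^ 13 := by
    have h11 : c * Q ≤ (M * (|α| + 2)) ^ 13 * l * (q : ℝ) ^ 13 := by
      calc c * Q ≤ (M * (|α| + 2) * q) ^ 13 * (l * (1 / Q)) * Q :=
            mul_le_mul_of_nonneg_right h9 hQ0.le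
        _ = (M * (|α| + 2)) ^ 13 * l * (q : ℝ) ^ 13 := by field_simp
    rw [hc1, div_mul_eq_mul_div, div_le_iff₀ (by positivity)]
    linarith
  have h12 := Real.rpow_le_rpow (by positivity) h10 (by norm_num : (0 : ℝ) ≤ 1 / 13)
  rw [Real.mul_rpow hc10.le (by positivity), ← Real.rpow_natCast (q : ℝ) 13,
    ← Real.rpow_mul hqr.le] at h12
  norm_num at h12 ⊢
  linarith

/-- the rotation of the map `T` in base `3` -/
theorem appr_three : Appr (-(Real.log 2 / Real.log 3)) := by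
  have hl3 : 0 < Real.log 3 := Real.log_pos (by norm_num)
  apply appr_lin _ (Real.log 3) hl3 (fun q _ => -(q : ℤ)) (fun _ h => -h) 1 one_pos
  · intro q h hq
    left
    omega
  · intro q h
    push_cast
    rw [abs_neg, abs_neg, abs_of_nonneg (Nat.cast_nonneg q), one_mul]
  · intro q h
    push_cast
    field_simp
    ring

/-- the rotation of the Collatz map in base `6` -/
theorem appr_six : Appr (-(Real.log 2 / Real.log 6)) := by
  have hl6 : 0 < Real.log 6 := Real.log_pos (by norm_num)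
  have e6 : Real.log 6 = Real.log 2 + Real.log 3 := by
    rw [← Real.log_mul (by norm_num) (by norm_num)]; norm_num
  apply appr_lin _ (Real.log 6) hl6 (fun q h => -(q : ℤ) - h) (fun _ h => -h) 2 (by norm_num)
  · intro q h hq
    by_contra hcon
    push Not at hcon
    omega
  · intro q h
    push_cast
    have h1 : |-(q : ℝ) - h| ≤ q + |(h : ℝ)| := by
      have := abs_sub (-(q : ℝ)) h
      rw [abs_neg (q : ℝ), abs_of_nonneg (Nat.cast_nonneg q : (0 : ℝ) ≤ q)] at this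
      exact this
    have h2 : (0 : ℝ) ≤ q := Nat.cast_nonneg q
    rw [abs_neg]
    linarith [abs_nonneg (h : ℝ)]
  · intro q h
    push_cast
    field_simp
    rw [e6]
    ring

/-- the rotation of the Syracuse maps in base `2` -/
theorem appr_two : Appr (Real.log 3 / Real.log 2) := by
  have hl2 : 0 < Real.log 2 := Real.log_pos (by norm_num)
  apply appr_lin _ (Real.log 2) hl2 (fun _ h => -h) (fun q _ => (q : ℤ)) 1 one_pos
  · intro q h hq
    right
    omega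
  · intro q h
    push_cast
    rw [abs_neg, abs_of_nonneg (Nat.cast_nonneg q : (0 : ℝ) ≤ q), one_mul, add_comm]
  · intro q h
    push_cast
    field_simp
    ring

/-- the error in one odd step, in base `g` -/
theorem step_err {b : ℤ} (hb : b % 2 = 1) {y : ℤ} {N g : ℝ} (hg : 1 / 2 ≤ Real.log g)
    (hN : |(b : ℝ)| ≤ N) (hy : N ≤ |(y : ℝ)|) :
    |(Real.log |(3 : ℝ) * y + b| - Real.log |(y : ℝ)| - Real.log 3) / Real.log g| ≤ |(b : ℝ)| / N := by
  have H : Par 3 b := ⟨by norm_num, by norm_num, hb⟩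
  have h1 := log_step' H hN hy
  have hB := H.b_ge
  have hN0 : 0 < N := by linarith
  have hg0 : 0 < Real.log g := by linarith
  rw [abs_div, abs_of_pos hg0, div_le_iff₀ hg0]
  push_cast at h1
  refine h1.trans ?_
  have h2 : |(b : ℝ)| / (2 * N) = |(b : ℝ)| / N * (1 / 2) := by field_simp
  rw [h2]
  exact mul_le_mul_of_nonneg_left hg (by positivity)

theorem log_ge_half {g : ℝ} (hg : 2 ≤ g) : 1 / 2 ≤ Real.log g := by
  have h1 := Real.log_two_gt_d9
  have h2 : Real.log 2 ≤ Real.log g := Real.log_le_log (by norm_num) hg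
  linarith

/-- **the maps `T_d`, base `3`** -/
theorem benford_T : ∃ C : ℝ, ∀ d : ℤ, d % 2 = 1 → ∀ (x : ℤ) (K : ℕ),
    Set.InjOn (fun i => (T 3 d)^[i] x) (Set.Iio K) →
    ∀ A B : ℝ, 0 ≤ A → A ≤ B → B ≤ 1 →
    |(((range K).filter fun i => A ≤ Int.fract (Real.logb 3 |(((T 3 d)^[i] x : ℤ) : ℝ)|) ∧
      Int.fract (Real.logb 3 |(((T 3 d)^[i] x : ℤ) : ℝ)|) < B).card : ℝ) - (B - A) * K| ≤
      C * (K : ℝ) ^ (27 / 28 : ℝ) * |(d : ℝ)| ^ (1 / 28 : ℝ) := by
  obtain ⟨C, hC⟩ := benford_distinct appr_three 3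
  refine ⟨C, ?_⟩
  intro d hd x K hinj A B hA hAB hB
  have H : Par 3 d := ⟨by norm_num, by norm_num, hd⟩
  have hd1 := H.b_ge
  have hl3 : 0 < Real.log 3 := Real.log_pos (by norm_num)
  refine hC |(d : ℝ)| hd1 (fun i => (T 3 d)^[i] x) K hinj ?_ A B hA hAB hB
  intro i hi N hN hy
  simp only [Function.iterate_succ_apply']
  set y := (T 3 d)^[i] x with hydef
  have hN0 : 0 < N := by linarith
  have hy0 : 0 < |(y : ℝ)| := by linarith
  rcases par y with h0 | h1
  · have e1 := T_even (a := 3) (b := d) h0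
    have e2 : (2 : ℝ) * ((T 3 d y : ℤ) : ℝ) = y := by exact_mod_cast e1
    have e3 : |((T 3 d y : ℤ) : ℝ)| = |(y : ℝ)| / 2 := by
      rw [← e2, abs_mul, abs_of_pos (by norm_num : (0 : ℝ) < 2)]; ring
    refine ⟨0, ?_⟩
    rw [e3, Real.logb, Real.logb, Real.log_div hy0.ne' (by norm_num)]
    have e4 : (Real.log |(y : ℝ)| - Real.log 2) / Real.log 3 - Real.log |(y : ℝ)| / Real.log 3 -
        -(Real.log 2 / Real.log 3) - ((0 : ℤ) : ℝ) = 0 := by push_cast; ring
    rw [e4, abs_zero]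
    positivity
  · have e1 := T_odd H h1
    have e2 : (2 : ℝ) * ((T 3 d y : ℤ) : ℝ) = 3 * y + d := by exact_mod_cast e1
    have hne : (3 : ℝ) * y + d ≠ 0 := by
      intro h0
      have h2 : |(3 : ℝ) * y| = |(d : ℝ)| := by
        rw [show (3 : ℝ) * y = -d by linarith, abs_neg]
      rw [abs_mul, abs_of_pos (by norm_num : (0 : ℝ) < 3)] at h2
      linarith
    have e3 : |((T 3 d y : ℤ) : ℝ)| = |(3 : ℝ) * y + d| / 2 := by
      rw [← e2, abs_mul, abs_of_pos (by norm_num : (0 : ℝ) < 2)]; ring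
    refine ⟨1, ?_⟩
    rw [e3, Real.logb, Real.logb, Real.log_div (abs_pos.2 hne).ne' (by norm_num)]
    have e4 : (Real.log |(3 : ℝ) * y + d| - Real.log 2) / Real.log 3 -
        Real.log |(y : ℝ)| / Real.log 3 - -(Real.log 2 / Real.log 3) - ((1 : ℤ) : ℝ) =
        (Real.log |(3 : ℝ) * y + d| - Real.log |(y : ℝ)| - Real.log 3) / Real.log 3 := by
      push_cast; field_simp; ring
    rw [e4]
    exact step_err hd (log_ge_half (by norm_num)) hN hy

/-- the Collatz map -/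
def Col (n : ℕ) : ℕ := if n % 2 = 0 then n / 2 else 3 * n + 1

/-- **the Collatz map, base `6`** -/
theorem benford_Col : ∃ C : ℝ, ∀ (n K : ℕ), 0 < n →
    Set.InjOn (fun i => Col^[i] n) (Set.Iio K) →
    ∀ A B : ℝ, 0 ≤ A → A ≤ B → B ≤ 1 →
    |(((range K).filter fun i => A ≤ Int.fract (Real.logb 6 (Col^[i] n : ℕ)) ∧
      Int.fract (Real.logb 6 (Col^[i] n : ℕ)) < B).card : ℝ) - (B - A) * K| ≤
      C * (K : ℝ) ^ (27 / 28 : ℝ) := by
  obtain ⟨C, hC⟩ := benford_distinct appr_six 6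
  refine ⟨C, ?_⟩
  intro n K hn hinj A B hA hAB hB
  have hl6 : 0 < Real.log 6 := Real.log_pos (by norm_num)
  have e6 : Real.log 6 = Real.log 2 + Real.log 3 := by
    rw [← Real.log_mul (by norm_num) (by norm_num)]; norm_num
  have h := hC 1 le_rfl (fun i => ((Col^[i] n : ℕ) : ℤ)) K
    (fun i hi j hj hij => hinj hi hj (by
      have : ((Col^[i] n : ℕ) : ℤ) = ((Col^[j] n : ℕ) : ℤ) := hij
      exact_mod_cast this)) ?_ A B hA hAB hB
  · simp only [Int.cast_natCast, Nat.abs_cast, Real.one_rpow, mul_one] at h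
    exact h
  intro i hi N hN hy
  simp only [Function.iterate_succ_apply']
  set y := Col^[i] n with hydef
  have hN0 : 0 < N := by linarith
  have hy0 : 0 < |((y : ℤ) : ℝ)| := by linarith
  have hyr : |((y : ℤ) : ℝ)| = (y : ℝ) := by simp
  have hyr0 : (0 : ℝ) < y := by rw [← hyr]; exact hy0
  rcases Nat.mod_two_eq_zero_or_one y with h0 | h1
  · have e2 : 2 * Col y = y := by
      have e1 : Col y = y / 2 := by rw [Col, if_pos h0]
      rw [e1]
      omega
    have e2' : (2 : ℝ) * (Col y : ℝ) = y := by exact_mod_cast e2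
    have e3 : |((Col y : ℤ) : ℝ)| = (y : ℝ) / 2 := by
      rw [← e2']; simp
    refine ⟨0, ?_⟩
    rw [e3, hyr, Real.logb, Real.logb, Real.log_div hyr0.ne' (by norm_num)]
    have e4 : (Real.log (y : ℝ) - Real.log 2) / Real.log 6 - Real.log (y : ℝ) / Real.log 6 -
        -(Real.log 2 / Real.log 6) - ((0 : ℤ) : ℝ) = 0 := by push_cast; ring
    rw [e4, abs_zero]
    positivity
  · have e1 : Col y = 3 * y + 1 := by rw [Col, if_neg (by omega)]
    have e3 : |((Col y : ℤ) : ℝ)| = |(3 : ℝ) * ((y : ℤ) : ℝ) + ((1 : ℤ) : ℝ)| := by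
      rw [e1]; push_cast; rfl
    refine ⟨1, ?_⟩
    rw [e3, Real.logb, Real.logb]
    have e4 : Real.log |(3 : ℝ) * ((y : ℤ) : ℝ) + ((1 : ℤ) : ℝ)| / Real.log 6 -
        Real.log |((y : ℤ) : ℝ)| / Real.log 6 - -(Real.log 2 / Real.log 6) - ((1 : ℤ) : ℝ) =
        (Real.log |(3 : ℝ) * ((y : ℤ) : ℝ) + ((1 : ℤ) : ℝ)| - Real.log |((y : ℤ) : ℝ)| -
          Real.log 3) / Real.log 6 := by
      push_cast
      field_simp
      rw [e6]
      ring
    rw [e4]
    have h5 := step_err (b := 1) (by norm_num) (y := (y : ℤ)) (N := N) (g := 6)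
      (log_ge_half (by norm_num)) (by simpa using hN) hy
    simpa using h5

/-- the Syracuse maps -/
def Syr (d x : ℤ) : ℤ := (3 * x + d) / 2 ^ padicValInt 2 (3 * x + d)

/-- **the Syracuse maps, base `2`** -/
theorem benford_Syr : ∃ C : ℝ, ∀ d : ℤ, d % 2 = 1 → ∀ (x : ℤ) (K : ℕ),
    Set.InjOn (fun i => (Syr d)^[i] x) (Set.Iio K) →
    ∀ A B : ℝ, 0 ≤ A → A ≤ B → B ≤ 1 →
    |(((range K).filter fun i => A ≤ Int.fract (Real.logb 2 |(((Syr d)^[i] x : ℤ) : ℝ)|) ∧
      Int.fract (Real.logb 2 |(((Syr d)^[i] x : ℤ) : ℝ)|) < B).card : ℝ) - (B - A) * K| ≤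
      C * (K : ℝ) ^ (27 / 28 : ℝ) * |(d : ℝ)| ^ (1 / 28 : ℝ) := by
  obtain ⟨C, hC⟩ := benford_distinct appr_two 2
  refine ⟨C, ?_⟩
  intro d hd x K hinj A B hA hAB hB
  have H : Par 3 d := ⟨by norm_num, by norm_num, hd⟩
  have hd1 := H.b_ge
  have hl2 : 0 < Real.log 2 := Real.log_pos (by norm_num)
  refine hC |(d : ℝ)| hd1 (fun i => (Syr d)^[i] x) K hinj ?_ A B hA hAB hB
  intro i hi N hN hy
  simp only [Function.iterate_succ_apply']
  set y := (Syr d)^[i] x with hydef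
  have hN0 : 0 < N := by linarith
  have hy0 : 0 < |(y : ℝ)| := by linarith
  have hne : (3 : ℝ) * y + d ≠ 0 := by
    intro h0
    have h2 : |(3 : ℝ) * y| = |(d : ℝ)| := by
      rw [show (3 : ℝ) * y = -d by linarith, abs_neg]
    rw [abs_mul, abs_of_pos (by norm_num : (0 : ℝ) < 3)] at h2
    linarith
  set v := padicValInt 2 (3 * y + d) with hv
  have hdiv : (2 : ℤ) ^ v ∣ 3 * y + d := by
    have h1 : ((2 : ℕ) : ℤ) ^ padicValInt 2 (3 * y + d) ∣ 3 * y + d := padicValInt_dvd _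
    exact_mod_cast h1
  have e1 : Syr d y * 2 ^ v = 3 * y + d := Int.ediv_mul_cancel hdiv
  have e2 : ((Syr d y : ℤ) : ℝ) * 2 ^ v = 3 * y + d := by exact_mod_cast e1
  have hv0 : (0 : ℝ) < 2 ^ v := by positivity
  have e3 : |((Syr d y : ℤ) : ℝ)| = |(3 : ℝ) * y + d| / 2 ^ v := by
    rw [← e2, abs_mul, abs_of_pos hv0]; field_simp
  refine ⟨-(v : ℤ), ?_⟩
  rw [e3, Real.logb, Real.logb, Real.log_div (abs_pos.2 hne).ne' hv0.ne', Real.log_pow]
  have e4 : (Real.log |(3 : ℝ) * y + d| - v * Real.log 2) / Real.log 2 -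
      Real.log |(y : ℝ)| / Real.log 2 - Real.log 3 / Real.log 2 - ((-(v : ℤ) : ℤ) : ℝ) =
      (Real.log |(3 : ℝ) * y + d| - Real.log |(y : ℝ)| - Real.log 3) / Real.log 2 := by
    push_cast; field_simp; ring
  rw [e4]
  exact step_err hd (log_ge_half le_rfl) hN hy

end Pool.Agent.W5h23.G
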